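import Pool.Agent.Helper717.LT.P_final_thm

/-!
# The kinetic inequality for families with a bounded real Gram matrix
-/

set_option autoImplicit false

open MeasureTheory Set Filter Topology Real

namespace Pool.Agent.K7.H21.LT

open LTd

/-- the inequality for families whose real Gram matrix is at most `θ` -/
theorem bessel_fin (d : ℕ) (hd : 1 ≤ d) (N : ℕ) (u : Fin N → (Fin d → ℝ) → ℂ)
    (g : Fin N → Fin d → (Fin d → ℝ) → ℂ) (hu : ∀ i, WGradC (u i) (g i)) (θ : ℝ) (hθ : 0 < θ)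
    (ho : ∀ c : Fin N → ℂ, ∫ x, ((∑ i, c i * u i x).re) ^ 2 ≤ θ * ∑ i, ‖c i‖ ^ 2) :
    Integrable (fun x => (∑ i, ‖u i x‖ ^ 2) ^ (1 + 2 / (d:ℝ))) ∧
    (3 / (4 * θ ^ 2) : ℝ) ^ (1 / (d:ℝ)) * Kcl d * ∫ x, (∑ i, ‖u i x‖ ^ 2) ^ (1 + 2 / (d:ℝ)) ≤
      ∑ i, ∑ k, ∫ x, ‖g i k x‖ ^ 2 := by
  obtain ⟨m, rfl⟩ : ∃ m, d = m + 1 := ⟨d - 1, by omega⟩
  have hsq : ∀ z : ℂ, ‖z‖ ^ 2 = z.re ^ 2 + z.im ^ 2 := by
    intro z
    rw [Complex.sq_norm, Complex.normSq_apply]; ring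
  set τ : ℝ := (√θ)⁻¹ with hτ
  have hsθ : 0 < √θ := Real.sqrt_pos.2 hθ
  have hτ0 : 0 < τ := inv_pos.2 hsθ
  have hτ2 : τ ^ 2 = θ⁻¹ := by rw [hτ, inv_pow, Real.sq_sqrt hθ.le]
  let F : Fin (N + N) → (Fin (m + 1) → ℝ) → ℝ :=
    Fin.append (fun i x => τ * (u i x).re) (fun i x => τ * (u i x).im)
  let G : Fin (N + N) → Fin (m + 1) → (Fin (m + 1) → ℝ) → ℝ :=
    Fin.append (fun i k x => τ * (g i k x).re) (fun i k x => τ * (g i k x).im)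
  have hFl : ∀ i, F (Fin.castAdd N i) = fun x => τ * (u i x).re := fun i => Fin.append_left _ _ i
  have hFr : ∀ i, F (Fin.natAdd N i) = fun x => τ * (u i x).im := fun i => Fin.append_right _ _ i
  have hGl : ∀ i, G (Fin.castAdd N i) = fun k x => τ * (g i k x).re :=
    fun i => Fin.append_left _ _ i
  have hGr : ∀ i, G (Fin.natAdd N i) = fun k x => τ * (g i k x).im :=
    fun i => Fin.append_right _ _ i
  have hmul : ∀ {f : (Fin (m + 1) → ℝ) → ℝ} {h : Fin (m + 1) → (Fin (m + 1) → ℝ) → ℝ},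
      WGrad f h → WGrad (fun x => τ * f x) (fun k x => τ * h k x) := by
    intro f h hf
    refine ⟨hf.f2.const_mul τ, fun k => (hf.g2 k).const_mul τ, fun k φ h1 h2 => ?_⟩
    have e1 : ∀ x, τ * f x * pd k φ x = τ * (f x * pd k φ x) := fun x => by ring
    have e2 : ∀ x, τ * h k x * φ x = τ * (h k x * φ x) := fun x => by ring
    simp only [e1, e2, integral_const_mul, hf.weak k φ h1 h2]
    ring
  have hW : ∀ i, WGrad (F i) (G i) := by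
    intro i
    refine Fin.addCases (fun i => ?_) (fun i => ?_) i
    · rw [hFl, hGl]
      exact hmul (split_complex (hu i)).1
    · rw [hFr, hGr]
      exact hmul (split_complex (hu i)).2
  have hG : ∀ v : Fin (N + N) → ℝ, ∫ x, (∑ i, v i * F i x) ^ 2 ≤ ∑ i, v i ^ 2 := by
    intro v
    have h1 := ho (fun i => (v (Fin.castAdd N i) : ℂ) - (v (Fin.natAdd N i) : ℂ) * Complex.I)
    have h2 : ∀ x, (∑ i, v i * F i x) ^ 2 = θ⁻¹ *
        ((∑ i, ((v (Fin.castAdd N i) : ℂ) - (v (Fin.natAdd N i) : ℂ) * Complex.I) *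
          u i x).re) ^ 2 := by
      intro x
      rw [Fin.sum_univ_add, ← Finset.sum_add_distrib, ← hτ2, ← mul_pow, Complex.re_sum,
        Finset.mul_sum]
      congr 1
      refine Finset.sum_congr rfl fun i _ => ?_
      simp only [hFl, hFr]
      simp [Complex.mul_re, Complex.sub_re, Complex.sub_im]
      ring
    have h3 : ∑ i, v i ^ 2 = ∑ i : Fin N,
        ‖(v (Fin.castAdd N i) : ℂ) - (v (Fin.natAdd N i) : ℂ) * Complex.I‖ ^ 2 := by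
      rw [Fin.sum_univ_add, ← Finset.sum_add_distrib]
      refine Finset.sum_congr rfl fun i _ => ?_
      rw [hsq]
      simp [Complex.sub_re, Complex.sub_im]
    simp only [h2]
    rw [integral_const_mul, h3, inv_mul_le_iff₀ hθ]
    exact h1
  have hH := H_real m (N + N) F G hW hG
  have hFs : ∀ x, ∑ i, F i x ^ 2 = θ⁻¹ * ∑ i, ‖u i x‖ ^ 2 := by
    intro x
    rw [Fin.sum_univ_add, ← Finset.sum_add_distrib, Finset.mul_sum]
    refine Finset.sum_congr rfl fun i _ => ?_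
    simp only [hFl, hFr]
    rw [hsq, ← hτ2]
    ring
  have hGs : ∀ x, ∑ j, ∑ i, G i j x ^ 2 = θ⁻¹ * ∑ i, ∑ j, ‖g i j x‖ ^ 2 := by
    intro x
    rw [Finset.sum_comm, Fin.sum_univ_add, ← Finset.sum_add_distrib, Finset.mul_sum]
    refine Finset.sum_congr rfl fun i _ => ?_
    rw [← Finset.sum_add_distrib, Finset.mul_sum]
    refine Finset.sum_congr rfl fun k _ => ?_
    simp only [hGl, hGr]
    rw [hsq, ← hτ2]
    ring
  have h6 : ((m + 1 : ℕ) : ℝ) = (m : ℝ) + 1 := by push_cast; ring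
  have hpow : ∀ x, (θ⁻¹ * ∑ i, ‖u i x‖ ^ 2) ^ (1 + 2 / ((m + 1 : ℕ) : ℝ)) =
      θ⁻¹ ^ (1 + 2 / ((m + 1 : ℕ) : ℝ)) * (∑ i, ‖u i x‖ ^ 2) ^ (1 + 2 / ((m + 1 : ℕ) : ℝ)) := by
    intro x
    rw [Real.mul_rpow (inv_nonneg.2 hθ.le) (Finset.sum_nonneg fun i _ => sq_nonneg _)]
  simp only [hFs, hGs, const_final, final_thm_pp, hpow] at hH
  have hcpos : 0 < θ⁻¹ ^ (1 + 2 / ((m + 1 : ℕ) : ℝ)) := Real.rpow_pos_of_pos (inv_pos.2 hθ) _
  have hI : ∀ i k, Integrable (fun x => ‖g i k x‖ ^ 2) := by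
    intro i k
    have := (hu i).g2 k
    exact this.integrable_norm_pow two_ne_zero
  have hint : ∫ x, ∑ i, ∑ j, ‖g i j x‖ ^ 2 = ∑ i, ∑ k, ∫ x, ‖g i k x‖ ^ 2 := by
    rw [integral_finsetSum _ (fun i _ => integrable_finsetSum _ (fun k _ => hI i k))]
    refine Finset.sum_congr rfl fun i _ => ?_
    rw [integral_finsetSum _ (fun k _ => hI i k)]
  refine ⟨?_, ?_⟩
  · have h := hH.1.const_mul (θ⁻¹ ^ (1 + 2 / ((m + 1 : ℕ) : ℝ)))⁻¹
    refine h.congr (Eventually.of_forall fun x => ?_)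
    simp only
    rw [← mul_assoc, inv_mul_cancel₀ hcpos.ne', one_mul]
  · have h5 := hH.2
    rw [integral_const_mul, integral_const_mul, hint] at h5
    have h7 := mul_le_mul_of_nonneg_left h5 hθ.le
    rw [mul_inv_cancel_left₀ hθ.ne'] at h7
    refine le_trans (le_of_eq ?_) h7
    have e1 : (3 / (4 * θ ^ 2) : ℝ) ^ (1 / ((m + 1 : ℕ) : ℝ)) =
        (3 / 4 : ℝ) ^ (1 / ((m + 1 : ℕ) : ℝ)) * θ⁻¹ ^ (2 / ((m + 1 : ℕ) : ℝ)) := by
      rw [show (3 / (4 * θ ^ 2) : ℝ) = (3 / 4) * θ⁻¹ ^ (2 : ℝ) by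
        rw [Real.rpow_two]; field_simp]
      rw [Real.mul_rpow (by norm_num) (Real.rpow_nonneg (inv_nonneg.2 hθ.le) _),
        ← Real.rpow_mul (inv_nonneg.2 hθ.le)]
      congr 2
      ring
    have e2 : θ * θ⁻¹ ^ (1 + 2 / ((m + 1 : ℕ) : ℝ)) = θ⁻¹ ^ (2 / ((m + 1 : ℕ) : ℝ)) := by
      rw [Real.rpow_add (inv_pos.2 hθ), Real.rpow_one, ← mul_assoc, mul_inv_cancel₀ hθ.ne',
        one_mul]
    rw [e1, ← e2]
    have h6' : (m : ℝ) + 1 = ((m + 1 : ℕ) : ℝ) := h6.symm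
    simp only [h6']
    ring

/-- the same for arbitrary finite index types -/
theorem bessel (d : ℕ) (hd : 1 ≤ d) {ι : Type*} [Fintype ι] (u : ι → (Fin d → ℝ) → ℂ)
    (g : ι → Fin d → (Fin d → ℝ) → ℂ) (hu : ∀ i, WGradC (u i) (g i)) (θ : ℝ) (hθ : 0 < θ)
    (ho : ∀ c : ι → ℂ, ∫ x, ((∑ i, c i * u i x).re) ^ 2 ≤ θ * ∑ i, ‖c i‖ ^ 2) :
    Integrable (fun x => (∑ i, ‖u i x‖ ^ 2) ^ (1 + 2 / (d:ℝ))) ∧
    (3 / (4 * θ ^ 2) : ℝ) ^ (1 / (d:ℝ)) * Kcl d * ∫ x, (∑ i, ‖u i x‖ ^ 2) ^ (1 + 2 / (d:ℝ)) ≤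
      ∑ i, ∑ k, ∫ x, ‖g i k x‖ ^ 2 := by
  obtain ⟨e⟩ : Nonempty (Fin (Fintype.card ι) ≃ ι) := ⟨(Fintype.equivFin ι).symm⟩
  have h := bessel_fin d hd (Fintype.card ι) (fun i => u (e i)) (fun i => g (e i))
    (fun i => hu (e i)) θ hθ (fun c => ?_)
  · have e1 : ∀ x, ∑ i, ‖u (e i) x‖ ^ 2 = ∑ i, ‖u i x‖ ^ 2 := fun x =>
      Equiv.sum_comp e (fun i => ‖u i x‖ ^ 2)
    have e2 : ∑ i, ∑ k, ∫ x, ‖g (e i) k x‖ ^ 2 = ∑ i, ∑ k, ∫ x, ‖g i k x‖ ^ 2 :=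
      Equiv.sum_comp e (fun i => ∑ k, ∫ x, ‖g i k x‖ ^ 2)
    simp only [e1, e2] at h
    exact h
  · have h1 := ho (fun i => c (e.symm i))
    have e1 : ∀ x, ∑ i, c i * u (e i) x = ∑ i, c (e.symm i) * u i x := by
      intro x
      rw [← Equiv.sum_comp e]
      simp
    have e2 : ∑ i, ‖c i‖ ^ 2 = ∑ i, ‖c (e.symm i)‖ ^ 2 := by
      rw [← Equiv.sum_comp e]
      simp
    simp only [e1, e2]
    exact h1

end Pool.Agent.K7.H21.LT
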