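import Mathlib

/-!
# Fourier series on the circle: Wirtinger's inequality and almost orthogonality
-/

set_option autoImplicit false

open MeasureTheory Set Filter Topology Real

namespace Pool.Agent.K7.H21.LT

/-- `2 π` times the Fourier coefficient -/
noncomputable def cf (k : ℤ) (g : ℝ → ℂ) : ℂ :=
  ∫ θ in (0 : ℝ)..(2 * π), Complex.exp (-(k * θ * Complex.I)) * g θ

theorem tp : (0 : ℝ) < 2 * π := Real.two_pi_pos

theorem fourier_exp (k : ℤ) (θ : ℝ) :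
    (fourier (-k) (θ : AddCircle (2 * π - 0)) : ℂ) = Complex.exp (-(k * θ * Complex.I)) := by
  rw [fourier_coe_apply]
  congr 1
  have h : (π : ℂ) ≠ 0 := by exact_mod_cast Real.pi_ne_zero
  push_cast
  field_simp
  ring

theorem cf_eq (k : ℤ) (g : ℝ → ℂ) :
    fourierCoeffOn tp g k = ((1 / (2 * π) : ℝ) : ℂ) * cf k g := by
  rw [fourierCoeffOn_eq_integral]
  have h : ∀ θ : ℝ, (fourier (-k) (θ : AddCircle (2 * π - 0)) : ℂ) • g θ =
      Complex.exp (-(k * θ * Complex.I)) * g θ := fun θ => by rw [fourier_exp, smul_eq_mul]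
  simp only [h]
  rw [sub_zero, cf, Complex.real_smul]

theorem parseval {g : ℝ → ℂ} (hg : Continuous g) :
    HasSum (fun k => ‖cf k g‖ ^ 2) (2 * π * ∫ θ in (0 : ℝ)..(2 * π), ‖g θ‖ ^ 2) := by
  have hL : MemLp g 2 (volume.restrict (Ioc 0 (2 * π))) := by
    refine (memLp_two_iff_integrable_sq_norm hg.aestronglyMeasurable).2 ?_
    exact ((hg.norm.pow 2).integrableOn_Icc (a := 0) (b := 2 * π)).mono_set Ioc_subset_Icc_self
  have h := hasSum_sq_fourierCoeffOn tp hL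
  have h2 := h.mul_left ((2 * π) ^ 2)
  have hp : (2 * π) ≠ 0 := tp.ne'
  have e1 : (fun k => (2 * π) ^ 2 * ‖fourierCoeffOn tp g k‖ ^ 2) = fun k => ‖cf k g‖ ^ 2 := by
    funext k
    rw [cf_eq, norm_mul, Complex.norm_real, Real.norm_eq_abs, mul_pow |1 / (2 * π)|, sq_abs]
    field_simp
  have e2 : (2 * π) ^ 2 * ((2 * π - 0)⁻¹ • ∫ x in (0 : ℝ)..(2 * π), ‖g x‖ ^ 2) =
      2 * π * ∫ θ in (0 : ℝ)..(2 * π), ‖g θ‖ ^ 2 := by
    rw [smul_eq_mul, sub_zero]
    field_simp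
  rw [e1, e2] at h2
  exact h2

theorem cf_deriv {g g' : ℝ → ℂ} (hd : ∀ θ, HasDerivAt g (g' θ) θ) (hc : Continuous g')
    (hper : g (2 * π) = g 0) {k : ℤ} (hk : k ≠ 0) : cf k g' = Complex.I * k * cf k g := by
  have h := fourierCoeffOn_of_hasDerivAt tp (n := k) hk (fun x _ => hd x)
    (hc.intervalIntegrable _ _)
  rw [hper, sub_self, mul_zero, zero_sub, cf_eq, cf_eq] at h
  have hp : (π : ℂ) ≠ 0 := by exact_mod_cast Real.pi_ne_zero
  have hk' : (k : ℂ) ≠ 0 := by exact_mod_cast hk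
  have hI := Complex.I_ne_zero
  push_cast at h
  field_simp at h
  have h2 : (2 * π : ℂ) * cf k g' = (2 * π : ℂ) * (Complex.I * k * cf k g) := by
    linear_combination (-1 : ℂ) * h
  exact mul_left_cancel₀ (mul_ne_zero two_ne_zero hp) h2

theorem wirtinger {g g' : ℝ → ℂ} (hd : ∀ θ, HasDerivAt g (g' θ) θ) (hc : Continuous g')
    (hper : g (2 * π) = g 0) (M : Set ℤ) (h0 : ∀ k, k ∉ M → cf k g = 0) {m : ℝ} (hm : 0 < m)
    (hM : ∀ k ∈ M, m ≤ |(k : ℝ)|) :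
    m ^ 2 * ∫ θ in (0 : ℝ)..(2 * π), ‖g θ‖ ^ 2 ≤ ∫ θ in (0 : ℝ)..(2 * π), ‖g' θ‖ ^ 2 := by
  have hg : Continuous g := continuous_iff_continuousAt.2 fun θ => (hd θ).continuousAt
  have h1 := (parseval hg).mul_left (m ^ 2)
  have h2 := parseval hc
  have h3 : m ^ 2 * (2 * π * ∫ θ in (0 : ℝ)..(2 * π), ‖g θ‖ ^ 2) ≤
      2 * π * ∫ θ in (0 : ℝ)..(2 * π), ‖g' θ‖ ^ 2 := by
    refine hasSum_le (fun k => ?_) h1 h2
    by_cases hk : k ∈ M
    · have hk0 : k ≠ 0 := by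
        rintro rfl
        have := hM 0 hk
        simp at this
        linarith
      rw [cf_deriv hd hc hper hk0, norm_mul, norm_mul, Complex.norm_I, one_mul, mul_pow]
      refine mul_le_mul_of_nonneg_right ?_ (sq_nonneg _)
      have : ‖(k : ℂ)‖ = |(k : ℝ)| := by
        rw [← Complex.ofReal_intCast, Complex.norm_real, Real.norm_eq_abs]
      rw [this]
      exact pow_le_pow_left₀ hm.le (hM k hk) 2
    · rw [h0 k hk]
      simp only [norm_zero]
      nlinarith [sq_nonneg ‖cf k g'‖]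
  have hp := tp
  have h4 : 2 * π * (m ^ 2 * ∫ θ in (0 : ℝ)..(2 * π), ‖g θ‖ ^ 2) ≤
      2 * π * ∫ θ in (0 : ℝ)..(2 * π), ‖g' θ‖ ^ 2 := by
    calc _ = m ^ 2 * (2 * π * ∫ θ in (0 : ℝ)..(2 * π), ‖g θ‖ ^ 2) := by ring
      _ ≤ _ := h3
  exact le_of_mul_le_mul_left h4 hp

theorem cs {ι : Type*} (s : Finset ι) (z : ι → ℂ) : ‖∑ i ∈ s, z i‖ ^ 2 ≤ s.card * ∑ i ∈ s, ‖z i‖ ^ 2 := by
  calc ‖∑ i ∈ s, z i‖ ^ 2 ≤ (∑ i ∈ s, ‖z i‖) ^ 2 :=
        pow_le_pow_left₀ (norm_nonneg _) (norm_sum_le _ _) 2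
    _ ≤ _ := sq_sum_le_card_mul_sum_sq

theorem cs2 {ι : Type*} (s t : Finset ι) (x y : ι → ℂ) :
    ‖∑ i ∈ s, x i + ∑ i ∈ t, y i‖ ^ 2 ≤
      (s.card + t.card : ℕ) * (∑ i ∈ s, ‖x i‖ ^ 2 + ∑ i ∈ t, ‖y i‖ ^ 2) := by
  have h := cs (s.disjSum t) (Sum.elim x y)
  rw [Finset.sum_disjSum, Finset.sum_disjSum, Finset.card_disjSum] at h
  exact h

theorem cf_exp_mul (k a : ℤ) (g : ℝ → ℂ) :
    cf k (fun θ => Complex.exp (a * θ * Complex.I) * g θ) = cf (k - a) g := by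
  unfold cf
  refine intervalIntegral.integral_congr fun θ _ => ?_
  simp only
  rw [← mul_assoc, ← Complex.exp_add]
  congr 2
  push_cast
  ring

theorem cf_star (k : ℤ) (g : ℝ → ℂ) :
    cf k (fun θ => (starRingEnd ℂ) (g θ)) = (starRingEnd ℂ) (cf (-k) g) := by
  unfold cf
  rw [intervalIntegral.integral_of_le tp.le, intervalIntegral.integral_of_le tp.le,
    ← integral_conj]
  refine integral_congr_ae (Eventually.of_forall fun θ => ?_)
  simp only [map_mul, ← Complex.exp_conj]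
  congr 2
  simp

theorem cf_sum {ι : Type*} (s : Finset ι) (k : ℤ) (f : ι → ℝ → ℂ) (hf : ∀ i ∈ s, Continuous (f i)) :
    cf k (fun θ => ∑ i ∈ s, f i θ) = ∑ i ∈ s, cf k (f i) := by
  unfold cf
  simp only [Finset.mul_sum]
  rw [intervalIntegral.integral_finsetSum]
  intro i hi
  have h : Continuous fun θ : ℝ => Complex.exp (-(k * θ * Complex.I)) := by fun_prop
  exact (h.mul (hf i hi)).intervalIntegrable _ _

theorem cf_add (k : ℤ) {f g : ℝ → ℂ} (hf : Continuous f) (hg : Continuous g) :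
    cf k (fun θ => f θ + g θ) = cf k f + cf k g := by
  unfold cf
  simp only [mul_add]
  have h : Continuous fun θ : ℝ => Complex.exp (-(k * θ * Complex.I)) := by fun_prop
  exact intervalIntegral.integral_add ((h.mul hf).intervalIntegrable _ _)
    ((h.mul hg).intervalIntegrable _ _)

open Classical in
/-- the sets `A` of shifts which separate `M` and `-M` up to multiplicity `G` -/
def Sep (M : Set ℤ) (A : Finset ℤ) (G : ℕ) : Prop :=
  ∀ k : ℤ, (A.filter fun a => k - a ∈ M).card + (A.filter fun a => -k - a ∈ M).card ≤ G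

theorem gram_circle {M : Set ℤ} {A : Finset ℤ} {G : ℕ} (hS : Sep M A G) (f : ℤ → ℝ → ℂ)
    (hf : ∀ a, Continuous (f a)) (h0 : ∀ a k, k ∉ M → cf k (f a) = 0) :
    ∫ θ in (0 : ℝ)..(2 * π), ((∑ a ∈ A, Complex.exp (a * θ * Complex.I) * f a θ).re) ^ 2 ≤
      (G / 2 : ℝ) * ∑ a ∈ A, ∫ θ in (0 : ℝ)..(2 * π), ‖f a θ‖ ^ 2 := by
  classical
  set e : ℤ → ℝ → ℂ := fun a θ => Complex.exp (a * θ * Complex.I) * f a θ with he
  have hec : ∀ a, Continuous (e a) := by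
    intro a
    have h : Continuous fun θ : ℝ => Complex.exp (a * θ * Complex.I) := by fun_prop
    exact h.mul (hf a)
  set F : ℝ → ℂ := fun θ => ∑ a ∈ A, e a θ with hF
  have hFc : Continuous F := continuous_finsetSum _ fun a _ => hec a
  have hFs : Continuous fun θ => (starRingEnd ℂ) (F θ) := Complex.continuous_conj.comp hFc
  have hcF : ∀ k, cf k F = ∑ a ∈ A, cf (k - a) (f a) := by
    intro k
    rw [hF, cf_sum A k e fun a _ => hec a]
    exact Finset.sum_congr rfl fun a _ => cf_exp_mul k a (f a)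
  set R : ℝ → ℂ := fun θ => F θ + (starRingEnd ℂ) (F θ) with hR
  have hRc : Continuous R := hFc.add hFs
  have hR2 : ∀ θ, ‖R θ‖ ^ 2 = 4 * ((F θ).re) ^ 2 := by
    intro θ
    rw [hR]
    simp only [Complex.add_conj]
    rw [Complex.norm_real, Real.norm_eq_abs, sq_abs]
    ring
  have hcR : ∀ k, cf k R = ∑ a ∈ A.filter (fun a => k - a ∈ M), cf (k - a) (f a) +
      ∑ a ∈ A.filter (fun a => -k - a ∈ M), (starRingEnd ℂ) (cf (-k - a) (f a)) := by
    intro k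
    rw [hR, cf_add k hFc hFs, cf_star, hcF, hcF, map_sum]
    congr 1
    · rw [Finset.sum_filter_of_ne]
      intro a _ hne
      by_contra hM
      exact hne (h0 a _ hM)
    · rw [Finset.sum_filter_of_ne]
      intro a _ hne
      by_contra hM
      exact hne (by rw [h0 a _ hM, map_zero])
  have hterm : ∀ k, ‖cf k R‖ ^ 2 ≤ (G : ℝ) * (∑ a ∈ A, ‖cf (k - a) (f a)‖ ^ 2 +
      ∑ a ∈ A, ‖cf (-k - a) (f a)‖ ^ 2) := by
    intro k
    rw [hcR]
    refine (cs2 _ _ _ _).trans ?_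
    refine mul_le_mul (by exact_mod_cast hS k) (add_le_add ?_ ?_) (by positivity) (by positivity)
    · exact Finset.sum_le_sum_of_subset_of_nonneg (Finset.filter_subset _ _)
        fun _ _ _ => sq_nonneg _
    · simp only [RCLike.norm_conj]
      exact Finset.sum_le_sum_of_subset_of_nonneg (Finset.filter_subset _ _)
        fun _ _ _ => sq_nonneg _
  have hs1 : HasSum (fun k : ℤ => ∑ a ∈ A, ‖cf (k - a) (f a)‖ ^ 2)
      (∑ a ∈ A, 2 * π * ∫ θ in (0 : ℝ)..(2 * π), ‖f a θ‖ ^ 2) := by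
    refine hasSum_sum fun a _ => ?_
    show HasSum ((fun k => ‖cf k (f a)‖ ^ 2) ∘ ⇑(Equiv.subRight a)) _
    exact (Equiv.subRight a).hasSum_iff.2 (parseval (hf a))
  have hs2 : HasSum (fun k : ℤ => ∑ a ∈ A, ‖cf (-k - a) (f a)‖ ^ 2)
      (∑ a ∈ A, 2 * π * ∫ θ in (0 : ℝ)..(2 * π), ‖f a θ‖ ^ 2) := by
    refine hasSum_sum fun a _ => ?_
    show HasSum ((fun k => ‖cf k (f a)‖ ^ 2) ∘ ⇑((Equiv.neg ℤ).trans (Equiv.subRight a))) _
    exact ((Equiv.neg ℤ).trans (Equiv.subRight a)).hasSum_iff.2 (parseval (hf a))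
  have hs3 := (hs1.add hs2).mul_left (G : ℝ)
  have h4 := hasSum_le hterm (parseval hRc) hs3
  simp only [hR2] at h4
  rw [intervalIntegral.integral_const_mul, ← Finset.mul_sum] at h4
  have hp := tp
  have h5 : 2 * π * (4 * ∫ θ in (0 : ℝ)..(2 * π), ((F θ).re) ^ 2) ≤
      2 * π * (2 * G * ∑ a ∈ A, ∫ θ in (0 : ℝ)..(2 * π), ‖f a θ‖ ^ 2) := by
    refine h4.trans (le_of_eq ?_)
    ring
  have h6 := le_of_mul_le_mul_left h5 hp
  linarith

end Pool.Agent.K7.H21.LT
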