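import Pool.Agent.K7.H21.LT.Phase
import Pool.Agent.K7.H21.LT.Circle

/-!
# The Hardy inequality and the Gram matrix of the vortex families
-/

set_option autoImplicit false

open MeasureTheory Set Filter Topology Real

namespace Pool.Agent.K7.H21.LT

open LTd

section

variable {m : ℕ}

/-- `u` has only the angular momenta `k ∈ M` in the plane of the first two coordinates -/
def Mom (M : Set ℤ) (u : (Fin (m + 2) → ℝ) → ℂ) : Prop :=
  ∀ x ∈ Off m, ∀ k, k ∉ M → cf k (fun θ => u (rot θ x)) = 0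

theorem aesm {β : Type*} [TopologicalSpace β] [TopologicalSpace.PseudoMetrizableSpace β]
    {f : (Fin (m + 2) → ℝ) → β} (hf : ContinuousOn f (Off m)) : AEStronglyMeasurable f volume := by
  have h := hf.aestronglyMeasurable (μ := volume) isOpen_Off.measurableSet
  rwa [Measure.restrict_eq_self_of_ae_mem ae_Off] at h

theorem cont_pdc {u : (Fin (m + 2) → ℝ) → ℂ} (hu : ContDiffOn ℝ 1 u (Off m)) (k : Fin (m + 2)) :
    ContinuousOn (pdc k u) (Off m) := by
  have h1 : ContinuousOn (fderiv ℝ u) (Off m) :=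
    hu.continuousOn_fderiv_of_isOpen isOpen_Off le_rfl
  unfold pdc
  exact h1.clm_apply continuousOn_const

theorem cont_qq : Continuous (qq : (Fin (m + 2) → ℝ) → ℝ) := by
  unfold qq
  fun_prop

theorem cont_qq_inv : ContinuousOn (fun x : Fin (m + 2) → ℝ => (qq x)⁻¹) (Off m) :=
  cont_qq.continuousOn.inv₀ fun x hx => (show 0 < qq x from hx).ne'

theorem cont_al (k : Fin (m + 2)) : ContinuousOn (al k : (Fin (m + 2) → ℝ) → ℝ) (Off m) := by
  have h : ∀ x ∈ Off m, qq x ≠ 0 := fun x hx => (show 0 < qq x from hx).ne'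
  by_cases h0 : k = 0
  · subst h0
    have e : (al 0 : (Fin (m + 2) → ℝ) → ℝ) = fun x => - x 1 / qq x := by
      funext x
      simp [al]
    rw [e]
    exact ContinuousOn.div (by fun_prop) cont_qq.continuousOn h
  by_cases h1 : k = 1
  · subst h1
    have e : (al 1 : (Fin (m + 2) → ℝ) → ℝ) = fun x => x 0 / qq x := by
      funext x
      simp [al]
    rw [e]
    exact ContinuousOn.div (by fun_prop) cont_qq.continuousOn h
  have e : (al k : (Fin (m + 2) → ℝ) → ℝ) = fun x => 0 := by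
    funext x
    simp [al, h0, h1]
  rw [e]
  exact continuousOn_const

theorem rot_deriv (x : Fin (m + 2) → ℝ) (θ : ℝ) :
    HasDerivAt (fun θ => rot θ x)
      (- rot θ x 1 • (Pi.single 0 (1 : ℝ) : Fin (m + 2) → ℝ) + rot θ x 0 • Pi.single 1 (1 : ℝ)) θ := by
  have h01 : (0 : Fin (m + 2)) ≠ 1 := fun h => one_ne h.symm
  rw [hasDerivAt_pi]
  intro i
  by_cases h0 : i = 0
  · subst h0
    simp only [rot_zero_coord, rot_one_coord]
    have h := ((Real.hasDerivAt_cos θ).mul_const (x 0)).sub ((Real.hasDerivAt_sin θ).mul_const (x 1))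
    refine h.congr_deriv ?_
    simp [h01]
    ring
  by_cases h1 : i = 1
  · subst h1
    simp only [rot_zero_coord, rot_one_coord]
    have h := ((Real.hasDerivAt_sin θ).mul_const (x 0)).add ((Real.hasDerivAt_cos θ).mul_const (x 1))
    refine h.congr_deriv ?_
    simp
    ring
  simp only [rot_coord _ _ h0 h1]
  refine (hasDerivAt_const θ (x i)).congr_deriv ?_
  simp [Pi.single_eq_of_ne h0, Pi.single_eq_of_ne h1]

theorem comp_rot_deriv {u : (Fin (m + 2) → ℝ) → ℂ} (hu : ContDiffOn ℝ 1 u (Off m))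
    {x : Fin (m + 2) → ℝ} (hx : x ∈ Off m) (θ : ℝ) :
    HasDerivAt (fun θ => u (rot θ x))
      (-(rot θ x 1 : ℂ) * pdc 0 u (rot θ x) + (rot θ x 0 : ℂ) * pdc 1 u (rot θ x)) θ := by
  have h1 : DifferentiableAt ℝ u (rot θ x) :=
    ((hu.differentiableOn one_ne_zero) _ (rot_mem.2 hx)).differentiableAt
      (isOpen_Off.mem_nhds (rot_mem.2 hx))
  have h2 := h1.hasFDerivAt.comp_hasDerivAt θ (rot_deriv x θ)
  refine h2.congr_deriv ?_
  rw [map_add, map_smul, map_smul]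
  unfold pdc
  simp only [Complex.real_smul]
  push_cast
  ring

theorem two_term (a b : ℝ) (z w : ℂ) :
    ‖-(b : ℂ) * z + (a : ℂ) * w‖ ^ 2 ≤ (a ^ 2 + b ^ 2) * (‖z‖ ^ 2 + ‖w‖ ^ 2) := by
  have h1 : ‖-(b : ℂ) * z + (a : ℂ) * w‖ ≤ |b| * ‖z‖ + |a| * ‖w‖ := by
    refine (norm_add_le _ _).trans (le_of_eq ?_)
    rw [norm_mul, norm_mul, norm_neg, Complex.norm_real, Complex.norm_real, Real.norm_eq_abs,
      Real.norm_eq_abs]
  have h2 := pow_le_pow_left₀ (norm_nonneg _) h1 2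
  refine h2.trans ?_
  rw [← sq_abs a, ← sq_abs b]
  nlinarith [sq_nonneg (|b| * ‖w‖ - |a| * ‖z‖)]

/-- the Hardy inequality -/
theorem hardy {M : Set ℤ} {μ : ℝ} (hμ : 0 < μ) (hM : ∀ k ∈ M, μ ≤ |(k : ℝ)|)
    {u : (Fin (m + 2) → ℝ) → ℂ} (hu : ContDiffOn ℝ 1 u (Off m)) (hm : Mom M u)
    (h0 : Integrable fun x => ‖pdc 0 u x‖ ^ 2) (h1 : Integrable fun x => ‖pdc 1 u x‖ ^ 2) :
    Integrable (fun x => ‖u x‖ ^ 2 * (qq x)⁻¹) ∧
      ∫ x, ‖u x‖ ^ 2 * (qq x)⁻¹ ≤ (μ ^ 2)⁻¹ * ∫ x, (‖pdc 0 u x‖ ^ 2 + ‖pdc 1 u x‖ ^ 2) := by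
  have hc0 := cont_pdc hu 0
  have hc1 := cont_pdc hu 1
  refine avg_le (F := fun x => ‖u x‖ ^ 2 * (qq x)⁻¹)
    (H := fun x => ‖pdc 0 u x‖ ^ 2 + ‖pdc 1 u x‖ ^ 2)
    ((hu.continuousOn.norm.pow 2).mul cont_qq_inv) ((hc0.norm.pow 2).add
    (hc1.norm.pow 2)) (fun x hx => ?_) (fun x _ => by positivity) (h0.add h1) (by positivity) ?_
  · have hq : 0 < qq x := hx
    positivity
  intro x hx
  have hq : 0 < qq x := hx
  set g : ℝ → ℂ := fun θ => u (rot θ x) with hg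
  set g' : ℝ → ℂ := fun θ => -(rot θ x 1 : ℂ) * pdc 0 u (rot θ x) +
    (rot θ x 0 : ℂ) * pdc 1 u (rot θ x) with hg'
  have hd : ∀ θ, HasDerivAt g (g' θ) θ := comp_rot_deriv hu hx
  have hr := continuous_rot_left x
  have hr0 : Continuous fun θ => rot θ x 0 := (continuous_apply 0).comp hr
  have hr1 : Continuous fun θ => rot θ x 1 := (continuous_apply 1).comp hr
  have hp0 := continuous_comp_rot hc0 hx
  have hp1 := continuous_comp_rot hc1 hx
  have hc' : Continuous g' :=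
    ((Complex.continuous_ofReal.comp hr1).neg.mul hp0).add
      ((Complex.continuous_ofReal.comp hr0).mul hp1)
  have hper : g (2 * π) = g 0 := by
    have : rot (2 * π) x = rot 0 x := by
      funext i
      simp [rot]
    simp only [hg, this]
  have hw := wirtinger hd hc' hper M (hm x hx) hμ hM
  have h3 : ∫ θ in (0 : ℝ)..(2 * π), ‖g' θ‖ ^ 2 ≤
      qq x * ∫ θ in (0 : ℝ)..(2 * π), (‖pdc 0 u (rot θ x)‖ ^ 2 + ‖pdc 1 u (rot θ x)‖ ^ 2) := by
    rw [← intervalIntegral.integral_const_mul]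
    refine intervalIntegral.integral_mono_on tp.le ((hc'.norm.pow 2).intervalIntegrable _ _)
      ((continuous_const.mul ((hp0.norm.pow 2).add (hp1.norm.pow 2))).intervalIntegrable _ _)
      fun θ _ => ?_
    rw [← qq_rot θ x]
    exact two_term _ _ _ _
  have h4 : ∫ θ in (0 : ℝ)..(2 * π), ‖u (rot θ x)‖ ^ 2 * (qq (rot θ x))⁻¹ =
      (∫ θ in (0 : ℝ)..(2 * π), ‖g θ‖ ^ 2) * (qq x)⁻¹ := by
    rw [← intervalIntegral.integral_mul_const]
    refine intervalIntegral.integral_congr fun θ _ => ?_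
    simp only [qq_rot, hg]
  rw [h4]
  have h5 := hw.trans h3
  rw [← div_eq_mul_inv, div_le_iff₀ hq]
  have h6 : (μ ^ 2)⁻¹ * (∫ θ in (0 : ℝ)..(2 * π), (‖pdc 0 u (rot θ x)‖ ^ 2 +
      ‖pdc 1 u (rot θ x)‖ ^ 2)) * qq x = (μ ^ 2)⁻¹ * (qq x *
      ∫ θ in (0 : ℝ)..(2 * π), (‖pdc 0 u (rot θ x)‖ ^ 2 + ‖pdc 1 u (rot θ x)‖ ^ 2)) := by ring
  rw [h6, inv_mul_eq_div, le_div_iff₀ (by positivity), mul_comm]
  exact h5

theorem Mom.sum {M : Set ℤ} {ι : Type*} (s : Finset ι) (c : ι → ℂ)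
    (u : ι → (Fin (m + 2) → ℝ) → ℂ) (hu : ∀ i ∈ s, ContinuousOn (u i) (Off m))
    (hm : ∀ i ∈ s, Mom M (u i)) : Mom M (fun x => ∑ i ∈ s, c i * u i x) := by
  intro x hx k hk
  rw [cf_sum s k (fun i θ => c i * u i (rot θ x)) fun i hi =>
    continuous_const.mul (continuous_comp_rot (hu i hi) hx)]
  refine Finset.sum_eq_zero fun i hi => ?_
  have h := hm i hi x hx k hk
  unfold cf at h ⊢
  simp only [mul_left_comm _ (c i)]
  rw [intervalIntegral.integral_const_mul, h, mul_zero]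

theorem Mom.phase {M : Set ℤ} {f : (Fin (m + 2) → ℝ) → ℂ} (hm : Mom M f)
    {x : Fin (m + 2) → ℝ} (hx : x ∈ Off m) (c : ℂ) {k : ℤ} (hk : k ∉ M) :
    cf k (fun θ => c * f (rot θ x)) = 0 := by
  have h := hm x hx k hk
  unfold cf at h ⊢
  simp only [mul_left_comm _ c]
  rw [intervalIntegral.integral_const_mul, h, mul_zero]

/-- the Gram matrix of the vortex family -/
theorem gram_vortex {M : Set ℤ} {A : Finset ℤ} {G : ℕ} (hS : Sep M A G)
    (f : ℤ → (Fin (m + 2) → ℝ) → ℂ) (hf : ∀ a, ContinuousOn (f a) (Off m))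
    (hm : ∀ a, Mom M (f a)) (hi : ∀ a, Integrable fun x => ‖f a x‖ ^ 2) :
    ∫ x, ((∑ a ∈ A, ph x ^ a * f a x).re) ^ 2 ≤ (G / 2 : ℝ) * ∑ a ∈ A, ∫ x, ‖f a x‖ ^ 2 := by
  have hFc : ContinuousOn (fun x : Fin (m + 2) → ℝ => ∑ a ∈ A, ph x ^ a * f a x) (Off m) :=
    continuousOn_finsetSum _ fun a _ => (contDiffOn_zpow a).continuousOn.mul (hf a)
  have hHc : ContinuousOn (fun x : Fin (m + 2) → ℝ => ∑ a ∈ A, ‖f a x‖ ^ 2) (Off m) :=
    continuousOn_finsetSum _ fun a _ => (hf a).norm.pow 2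
  have h := (avg_le (F := fun x => ((∑ a ∈ A, ph x ^ a * f a x).re) ^ 2)
    (H := fun x => ∑ a ∈ A, ‖f a x‖ ^ 2) ((Complex.continuous_re.comp_continuousOn hFc).pow 2) hHc
    (fun x _ => sq_nonneg _) (fun x _ => Finset.sum_nonneg fun a _ => sq_nonneg _)
    (integrable_finsetSum _ fun a _ => hi a) (C := (G / 2 : ℝ)) (by positivity) ?_).2
  · rw [integral_finsetSum _ fun a _ => hi a] at h
    exact h
  intro x hx
  have hg := gram_circle hS (fun a θ => ph x ^ a * f a (rot θ x))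
    (fun a => continuous_const.mul (continuous_comp_rot (hf a) hx))
    (fun a k hk => (hm a).phase hx _ hk)
  have e1 : ∀ θ : ℝ, ∑ a ∈ A, ph (rot θ x) ^ a * f a (rot θ x) =
      ∑ a ∈ A, Complex.exp (a * θ * Complex.I) * (ph x ^ a * f a (rot θ x)) := by
    intro θ
    refine Finset.sum_congr rfl fun a _ => ?_
    rw [ph_rot, mul_zpow, ← Complex.exp_int_mul]
    ring_nf
  have e2 : ∑ a ∈ A, ∫ θ in (0 : ℝ)..(2 * π), ‖ph x ^ a * f a (rot θ x)‖ ^ 2 =
      ∫ θ in (0 : ℝ)..(2 * π), ∑ a ∈ A, ‖f a (rot θ x)‖ ^ 2 := by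
    have hI := intervalIntegral.integral_finsetSum (s := A) (μ := volume) (a := 0) (b := 2 * π)
      (f := fun a (θ : ℝ) => ‖f a (rot θ x)‖ ^ 2) fun a _ =>
      ((continuous_comp_rot (hf a) hx).norm.pow 2).intervalIntegrable _ _
    rw [hI]
    refine Finset.sum_congr rfl fun a _ => ?_
    simp only [norm_mul, norm_ph_zpow hx, one_mul]
  rw [e2] at hg
  simp only [e1]
  exact hg

end

end Pool.Agent.K7.H21.LT
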