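import Pool.Agent.K7.H21.LT.Hardy
import Pool.Agent.K7.H21.LT.Bessel

/-!
# The inequality for the vortex families
-/

set_option autoImplicit false

open MeasureTheory Set Filter Topology Real

namespace Pool.Agent.K7.H21.LT

open LTd

section

variable {m : ℕ}

/-- orthonormal systems with the angular momenta in `M`, continuously differentiable off the axis -/
structure Sys {N : ℕ} (M : Set ℤ) (u : Fin N → (Fin (m + 2) → ℝ) → ℂ) : Prop where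
  smooth : ∀ n, ContDiffOn ℝ 1 (u n) (Off m)
  mom : ∀ n, Mom M (u n)
  int : ∀ n, Integrable fun x => ‖u n x‖ ^ 2
  grad : ∀ n k, Integrable fun x => ‖pdc k (u n) x‖ ^ 2
  orth : ∀ n n', ∫ x, (starRingEnd ℂ) (u n x) * u n' x = if n = n' then 1 else 0

theorem norm_sq_eq (z : ℂ) : ((‖z‖ ^ 2 : ℝ) : ℂ) = (starRingEnd ℂ) z * z := by
  rw [← Complex.normSq_eq_norm_sq, mul_comm]
  exact (Complex.mul_conj z).symm

theorem orth_norm {n N : ℕ} {u : Fin N → (Fin n → ℝ) → ℂ} (h2 : ∀ i, MemLp (u i) 2 volume)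
    (ho : ∀ i j, ∫ x, (starRingEnd ℂ) (u i x) * u j x = if i = j then 1 else 0) (c : Fin N → ℂ) :
    ∫ x, ‖∑ i, c i * u i x‖ ^ 2 = ∑ i, ‖c i‖ ^ 2 := by
  have hs : ∀ i, MemLp (fun x => (starRingEnd ℂ) (u i x)) 2 volume := fun i => (h2 i).star
  have hij : ∀ i j, Integrable fun x => (starRingEnd ℂ) (u i x) * u j x := fun i j =>
    (hs i).integrable_mul (h2 j)
  have h : ((∫ x, ‖∑ i, c i * u i x‖ ^ 2 : ℝ) : ℂ) = ((∑ i, ‖c i‖ ^ 2 : ℝ) : ℂ) := by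
    rw [← integral_complex_ofReal]
    have e : ∀ x, ((‖∑ i, c i * u i x‖ ^ 2 : ℝ) : ℂ) =
        ∑ i, ∑ j, ((starRingEnd ℂ) (c i) * c j) * ((starRingEnd ℂ) (u i x) * u j x) := by
      intro x
      rw [norm_sq_eq, map_sum, Finset.sum_mul_sum]
      refine Finset.sum_congr rfl fun i _ => Finset.sum_congr rfl fun j _ => ?_
      rw [map_mul]
      ring
    simp only [e]
    rw [integral_finsetSum _ fun i _ => integrable_finsetSum _ fun j _ => (hij i j).const_mul _]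
    push_cast
    refine Finset.sum_congr rfl fun i _ => ?_
    rw [integral_finsetSum _ fun j _ => (hij i j).const_mul _]
    simp only [integral_const_mul, ho]
    simp only [mul_ite, mul_one, mul_zero, Finset.sum_ite_eq, Finset.mem_univ, if_true]
    rw [← norm_sq_eq]
    push_cast
    rfl
  exact_mod_cast h

/-- the energy density of the vortex function -/
noncomputable def En (a : ℤ) (k : Fin (m + 2)) (u : (Fin (m + 2) → ℝ) → ℂ)
    (x : Fin (m + 2) → ℝ) : ℝ :=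
  ‖pdc k u x + (a : ℂ) * (al k x : ℂ) * Complex.I * u x‖ ^ 2

theorem cont_En {u : (Fin (m + 2) → ℝ) → ℂ} (hu : ContDiffOn ℝ 1 u (Off m)) (a : ℤ)
    (k : Fin (m + 2)) : ContinuousOn (En a k u) (Off m) := by
  unfold En
  refine ((cont_pdc hu k).add ?_).norm.pow 2
  refine ContinuousOn.mul (ContinuousOn.mul (ContinuousOn.mul continuousOn_const ?_)
    continuousOn_const) hu.continuousOn
  exact Complex.continuous_ofReal.comp_continuousOn (cont_al k)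

theorem int_En {u : (Fin (m + 2) → ℝ) → ℂ} (hu : ContDiffOn ℝ 1 u (Off m)) (a : ℤ)
    (k : Fin (m + 2)) (hk : Integrable fun x => ‖pdc k u x‖ ^ 2)
    (hq : Integrable fun x => ‖u x‖ ^ 2 * (qq x)⁻¹) : Integrable (En a k u) := by
  refine Integrable.mono' ((hk.const_mul 2).add (hq.const_mul (2 * (a : ℝ) ^ 2)))
    (aesm (cont_En hu a k)) ?_
  filter_upwards [ae_Off] with x hx
  have hqx : 0 < qq x := hx
  have h0 : 0 ≤ En a k u x := sq_nonneg _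
  rw [Real.norm_of_nonneg h0]
  unfold En
  have h1 := norm_add_le (pdc k u x) ((a : ℂ) * (al k x : ℂ) * Complex.I * u x)
  have h2 : ‖(a : ℂ) * (al k x : ℂ) * Complex.I * u x‖ = |(a : ℝ)| * |al k x| * ‖u x‖ := by
    rw [norm_mul, norm_mul, norm_mul, Complex.norm_I, mul_one, Complex.norm_real,
      Real.norm_eq_abs, ← Complex.ofReal_intCast, Complex.norm_real, Real.norm_eq_abs]
  rw [h2] at h1
  have h3 := pow_le_pow_left₀ (norm_nonneg _) h1 2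
  refine h3.trans ?_
  have h4 : (|(a : ℝ)| * |al k x| * ‖u x‖) ^ 2 ≤ (a : ℝ) ^ 2 * (‖u x‖ ^ 2 * (qq x)⁻¹) := by
    rw [mul_pow, mul_pow, sq_abs, sq_abs]
    have := al_sq_le hx k
    calc (a : ℝ) ^ 2 * al k x ^ 2 * ‖u x‖ ^ 2 = (a : ℝ) ^ 2 * (‖u x‖ ^ 2 * al k x ^ 2) := by ring
      _ ≤ (a : ℝ) ^ 2 * (‖u x‖ ^ 2 * (qq x)⁻¹) := by gcongr
  simp only [Pi.add_apply]
  nlinarith [sq_nonneg (‖pdc k u x‖ - |(a : ℝ)| * |al k x| * ‖u x‖)]

theorem En_add {u : (Fin (m + 2) → ℝ) → ℂ} (a : ℤ) (k : Fin (m + 2)) (x : Fin (m + 2) → ℝ) :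
    En a k u x + En (-a) k u x =
      2 * ‖pdc k u x‖ ^ 2 + 2 * (a : ℝ) ^ 2 * (‖u x‖ ^ 2 * al k x ^ 2) := by
  unfold En
  have h2 : ‖(a : ℂ) * (al k x : ℂ) * Complex.I * u x‖ = |(a : ℝ)| * |al k x| * ‖u x‖ := by
    rw [norm_mul, norm_mul, norm_mul, Complex.norm_I, mul_one, Complex.norm_real,
      Real.norm_eq_abs, ← Complex.ofReal_intCast, Complex.norm_real, Real.norm_eq_abs]
  have h3 := parallelogram_law_with_norm ℝ (pdc k u x)
    ((a : ℂ) * (al k x : ℂ) * Complex.I * u x)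
  have h4 : ((-a : ℤ) : ℂ) * (al k x : ℂ) * Complex.I * u x =
      -((a : ℂ) * (al k x : ℂ) * Complex.I * u x) := by
    push_cast
    ring
  rw [h4, ← sub_eq_add_neg]
  rw [h2] at h3
  have h5 : (|(a : ℝ)| * |al k x| * ‖u x‖) ^ 2 = (a : ℝ) ^ 2 * (‖u x‖ ^ 2 * al k x ^ 2) := by
    rw [mul_pow, mul_pow, sq_abs, sq_abs]
    ring
  linear_combination h3 + 2 * h5

theorem Sys.memLp {N : ℕ} {M : Set ℤ} {u : Fin N → (Fin (m + 2) → ℝ) → ℂ} (hs : Sys M u)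
    (n : Fin N) : MemLp (u n) 2 volume :=
  (memLp_two_iff_integrable_sq_norm (aesm (hs.smooth n).continuousOn)).2 (hs.int n)

/-- the vortex functions belong to the Sobolev space -/
theorem wgrad_vortex {u : (Fin (m + 2) → ℝ) → ℂ} (hu : ContDiffOn ℝ 1 u (Off m))
    (h2 : Integrable fun x => ‖u x‖ ^ 2) (hk : ∀ k, Integrable fun x => ‖pdc k u x‖ ^ 2)
    (hq : Integrable fun x => ‖u x‖ ^ 2 * (qq x)⁻¹) (a : ℤ) :
    WGradC (fun x => ph x ^ a * u x) (fun k => pdc k (fun x => ph x ^ a * u x)) := by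
  have hc : ContDiffOn ℝ 1 (fun x : Fin (m + 2) → ℝ => ph x ^ a * u x) (Off m) :=
    (contDiffOn_zpow a).mul hu
  refine weak_of_off hc ?_ fun k => ?_
  · refine (memLp_two_iff_integrable_sq_norm (aesm hc.continuousOn)).2 (h2.congr ?_)
    filter_upwards [ae_Off] with x hx
    rw [norm_mul, norm_ph_zpow hx, one_mul]
  · refine (memLp_two_iff_integrable_sq_norm (aesm (cont_pdc hc k))).2
      ((int_En hu a k (hk k) hq).congr ?_)
    filter_upwards [ae_Off] with x hx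
    rw [pdc_vortex hu hx, norm_mul, norm_ph_zpow hx, one_mul]
    rfl

theorem one_side {N : ℕ} {M : Set ℤ} {u : Fin N → (Fin (m + 2) → ℝ) → ℂ} (hs : Sys M u)
    {μ : ℝ} (hμ : 0 < μ) (hM : ∀ k ∈ M, μ ≤ |(k : ℝ)|)
    {A : Finset ℤ} (hA : A.Nonempty) {G : ℕ} (hG : 0 < G) (hS : Sep M A G) :
    Integrable (fun x => (∑ n, ‖u n x‖ ^ 2) ^ (1 + 2 / ((m + 2 : ℕ) : ℝ))) ∧
    (3 / (G : ℝ) ^ 2) ^ (1 / ((m + 2 : ℕ) : ℝ)) * Kcl (m + 2) *
      ((A.card : ℝ) ^ (1 + 2 / ((m + 2 : ℕ) : ℝ)) *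
        ∫ x, (∑ n, ‖u n x‖ ^ 2) ^ (1 + 2 / ((m + 2 : ℕ) : ℝ))) ≤
      ∑ a ∈ A, ∑ n, ∑ k, ∫ x, En a k (u n) x := by
  classical
  have hq : ∀ n, Integrable fun x => ‖u n x‖ ^ 2 * (qq x)⁻¹ := fun n =>
    (hardy hμ hM (hs.smooth n) (hs.mom n) (hs.grad n 0) (hs.grad n 1)).1
  set V : A × Fin N → (Fin (m + 2) → ℝ) → ℂ := fun p x => ph x ^ (p.1 : ℤ) * u p.2 x with hV
  have hVW : ∀ p, WGradC (V p) (fun k => pdc k (V p)) := fun p =>
    wgrad_vortex (hs.smooth p.2) (hs.int p.2) (hs.grad p.2) (hq p.2) p.1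
  have hcard : 0 < (A.card : ℝ) := by exact_mod_cast hA.card_pos
  have hgram : ∀ c : A × Fin N → ℂ, ∫ x, ((∑ p, c p * V p x).re) ^ 2 ≤
      (G / 2 : ℝ) * ∑ p, ‖c p‖ ^ 2 := by
    intro c
    set C : ℤ → Fin N → ℂ := fun a n => if h : a ∈ A then c (⟨a, h⟩, n) else 0 with hC
    set f : ℤ → (Fin (m + 2) → ℝ) → ℂ := fun a x => ∑ n, C a n * u n x with hf
    have hCa : ∀ (a : A) n, C a n = c (a, n) := by
      intro a n
      simp only [hC, a.2, dif_pos]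
    have hfc : ∀ a, ContinuousOn (f a) (Off m) := fun a =>
      continuousOn_finsetSum _ fun n _ => continuousOn_const.mul (hs.smooth n).continuousOn
    have hfm : ∀ a, Mom M (f a) := fun a =>
      Mom.sum Finset.univ (C a) u (fun n _ => (hs.smooth n).continuousOn) fun n _ => hs.mom n
    have hfL : ∀ a, MemLp (f a) 2 volume := fun a =>
      memLp_finsetSum _ fun n _ => (hs.memLp n).const_mul _
    have hfi : ∀ a, Integrable fun x => ‖f a x‖ ^ 2 := fun a =>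
      (hfL a).integrable_norm_pow two_ne_zero
    have hfn : ∀ a, ∫ x, ‖f a x‖ ^ 2 = ∑ n, ‖C a n‖ ^ 2 := fun a =>
      orth_norm (fun n => hs.memLp n) hs.orth (C a)
    have h := gram_vortex hS f hfc hfm hfi
    have e1 : ∀ x, ∑ p, c p * V p x = ∑ a ∈ A, ph x ^ a * f a x := by
      intro x
      rw [Fintype.sum_prod_type, ← Finset.sum_coe_sort A fun a => ph x ^ a * f a x]
      refine Finset.sum_congr rfl fun a _ => ?_
      rw [hf]
      simp only [Finset.mul_sum, hV, hCa]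
      refine Finset.sum_congr rfl fun n _ => ?_
      ring
    have e2 : ∑ p, ‖c p‖ ^ 2 = ∑ a ∈ A, ∫ x, ‖f a x‖ ^ 2 := by
      simp only [hfn]
      rw [Fintype.sum_prod_type, ← Finset.sum_coe_sort A fun a => ∑ n, ‖C a n‖ ^ 2]
      refine Finset.sum_congr rfl fun a _ => Finset.sum_congr rfl fun n _ => ?_
      rw [hCa]
    simp only [e1]
    rw [e2]
    exact h
  have hB := bessel (m + 2) (by omega) V (fun p k => pdc k (V p)) hVW (G / 2 : ℝ)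
    (by positivity) hgram
  have hρ : ∀ᵐ x : Fin (m + 2) → ℝ, (∑ p, ‖V p x‖ ^ 2) ^ (1 + 2 / ((m + 2 : ℕ) : ℝ)) =
      (A.card : ℝ) ^ (1 + 2 / ((m + 2 : ℕ) : ℝ)) *
        (∑ n, ‖u n x‖ ^ 2) ^ (1 + 2 / ((m + 2 : ℕ) : ℝ)) := by
    filter_upwards [ae_Off] with x hx
    have e : ∑ p, ‖V p x‖ ^ 2 = (A.card : ℝ) * ∑ n, ‖u n x‖ ^ 2 := by
      rw [Fintype.sum_prod_type]
      simp only [hV, norm_mul, norm_ph_zpow hx, one_mul]
      rw [Finset.sum_const, Finset.card_univ, Fintype.card_coe, nsmul_eq_mul]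
    rw [e, Real.mul_rpow hcard.le (Finset.sum_nonneg fun n _ => sq_nonneg _)]
  have hcp : 0 < (A.card : ℝ) ^ (1 + 2 / ((m + 2 : ℕ) : ℝ)) := Real.rpow_pos_of_pos hcard _
  refine ⟨?_, ?_⟩
  · have h1 := (hB.1.congr hρ).const_mul ((A.card : ℝ) ^ (1 + 2 / ((m + 2 : ℕ) : ℝ)))⁻¹
    refine h1.congr (Eventually.of_forall fun x => ?_)
    simp only
    rw [← mul_assoc, inv_mul_cancel₀ hcp.ne', one_mul]
  · have h1 := hB.2
    rw [integral_congr_ae hρ, integral_const_mul] at h1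
    have e1 : (3 / (4 * (G / 2 : ℝ) ^ 2)) = 3 / (G : ℝ) ^ 2 := by
      have : (0 : ℝ) < G := by exact_mod_cast hG
      field_simp
      ring
    rw [e1] at h1
    refine h1.trans (le_of_eq ?_)
    rw [Fintype.sum_prod_type, ← Finset.sum_coe_sort A fun a => ∑ n, ∑ k, ∫ x, En a k (u n) x]
    refine Finset.sum_congr rfl fun a _ => Finset.sum_congr rfl fun n _ =>
      Finset.sum_congr rfl fun k _ => integral_congr_ae ?_
    filter_upwards [ae_Off] with x hx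
    simp only [hV]
    rw [pdc_vortex (hs.smooth n) hx, norm_mul, norm_ph_zpow hx, one_mul]
    rfl

/-- the inequality obtained from the vortex families -/
theorem iso {N : ℕ} {M : Set ℤ} {u : Fin N → (Fin (m + 2) → ℝ) → ℂ} (hs : Sys M u)
    {μ : ℝ} (hμ : 0 < μ) (hM : ∀ k ∈ M, μ ≤ |(k : ℝ)|)
    {A : Finset ℤ} (hA : A.Nonempty) {G : ℕ} (hG : 0 < G) (hS : Sep M A G)
    (hS' : Sep M (A.map (Equiv.neg ℤ).toEmbedding) G) :
    Integrable (fun x => (∑ n, ‖u n x‖ ^ 2) ^ (1 + 2 / ((m + 2 : ℕ) : ℝ))) ∧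
    (3 / (G : ℝ) ^ 2) ^ (1 / ((m + 2 : ℕ) : ℝ)) * Kcl (m + 2) *
      ((A.card : ℝ) ^ (1 + 2 / ((m + 2 : ℕ) : ℝ)) *
        ∫ x, (∑ n, ‖u n x‖ ^ 2) ^ (1 + 2 / ((m + 2 : ℕ) : ℝ))) ≤
      A.card * (∑ n, ∑ k, ∫ x, ‖pdc k (u n) x‖ ^ 2) +
        (∑ a ∈ A, (a : ℝ) ^ 2) * (μ ^ 2)⁻¹ *
          ∑ n, ∫ x, (‖pdc 0 (u n) x‖ ^ 2 + ‖pdc 1 (u n) x‖ ^ 2) := by
  have hH := fun n => hardy hμ hM (hs.smooth n) (hs.mom n) (hs.grad n 0) (hs.grad n 1)
  have h1 := one_side hs hμ hM hA hG hS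
  have h2 := one_side hs hμ hM (hA.map) hG hS'
  refine ⟨h1.1, ?_⟩
  have h3 := h1.2
  have h4 := h2.2
  rw [Finset.card_map, Finset.sum_map] at h4
  have h5 : ∀ (a : ℤ) (n : Fin N), (∑ k, ∫ x, En a k (u n) x) + (∑ k, ∫ x, En (-a) k (u n) x) =
      2 * (∑ k, ∫ x, ‖pdc k (u n) x‖ ^ 2) + 2 * (a : ℝ) ^ 2 * (∫ x, ‖u n x‖ ^ 2 * (qq x)⁻¹) := by
    intro a n
    have hal : ∀ k, Integrable fun x => ‖u n x‖ ^ 2 * al k x ^ 2 := by
      intro k
      refine Integrable.mono' (hH n).1 (aesm (((hs.smooth n).continuousOn.norm.pow 2).mul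
        ((cont_al k).pow 2))) ?_
      filter_upwards [ae_Off] with x hx
      have := al_sq_le hx k
      rw [Real.norm_of_nonneg (by positivity)]
      gcongr
    have e1 : ∫ x, ‖u n x‖ ^ 2 * (qq x)⁻¹ = ∑ k, ∫ x, ‖u n x‖ ^ 2 * al k x ^ 2 := by
      rw [← integral_finsetSum _ fun k _ => hal k]
      refine integral_congr_ae ?_
      filter_upwards [ae_Off] with x hx
      rw [← Finset.mul_sum, al_sq hx]
    rw [e1, Finset.mul_sum, Finset.mul_sum, ← Finset.sum_add_distrib, ← Finset.sum_add_distrib]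
    refine Finset.sum_congr rfl fun k _ => ?_
    rw [← integral_add (int_En (hs.smooth n) a k (hs.grad n k) (hH n).1)
      (int_En (hs.smooth n) (-a) k (hs.grad n k) (hH n).1)]
    simp only [En_add]
    rw [integral_add ((hs.grad n k).const_mul 2) ((hal k).const_mul _), integral_const_mul,
      integral_const_mul]
  have h6 : (∑ a ∈ A, ∑ n, ∑ k, ∫ x, En a k (u n) x) +
      (∑ a ∈ A, ∑ n, ∑ k, ∫ x, En (-a) k (u n) x) =
      2 * (A.card * (∑ n, ∑ k, ∫ x, ‖pdc k (u n) x‖ ^ 2) +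
        (∑ a ∈ A, (a : ℝ) ^ 2) * (∑ n, ∫ x, ‖u n x‖ ^ 2 * (qq x)⁻¹)) := by
    rw [← Finset.sum_add_distrib]
    have e : ∀ a ∈ A, (∑ n, ∑ k, ∫ x, En a k (u n) x) + (∑ n, ∑ k, ∫ x, En (-a) k (u n) x) =
        2 * (∑ n, ∑ k, ∫ x, ‖pdc k (u n) x‖ ^ 2) +
          2 * (a : ℝ) ^ 2 * (∑ n, ∫ x, ‖u n x‖ ^ 2 * (qq x)⁻¹) := by
      intro a _
      rw [← Finset.sum_add_distrib, Finset.mul_sum, Finset.mul_sum, ← Finset.sum_add_distrib]
      exact Finset.sum_congr rfl fun n _ => h5 a n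
    rw [Finset.sum_congr rfl e, Finset.sum_add_distrib, Finset.sum_const, nsmul_eq_mul,
      ← Finset.sum_mul, ← Finset.mul_sum]
    ring
  have h7 : (∑ a ∈ A, (a : ℝ) ^ 2) * (∑ n, ∫ x, ‖u n x‖ ^ 2 * (qq x)⁻¹) ≤
      (∑ a ∈ A, (a : ℝ) ^ 2) * (μ ^ 2)⁻¹ *
        (∑ n, ∫ x, (‖pdc 0 (u n) x‖ ^ 2 + ‖pdc 1 (u n) x‖ ^ 2)) := by
    rw [mul_assoc]
    refine mul_le_mul_of_nonneg_left ?_ (Finset.sum_nonneg fun a _ => sq_nonneg _)
    rw [Finset.mul_sum]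
    exact Finset.sum_le_sum fun n _ => (hH n).2
  have h8 : ∑ a ∈ A, ∑ n, ∑ k, ∫ x, En ((Equiv.neg ℤ).toEmbedding a) k (u n) x =
      ∑ a ∈ A, ∑ n, ∑ k, ∫ x, En (-a) k (u n) x := rfl
  rw [h8] at h4
  linarith

end

end Pool.Agent.K7.H21.LT
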