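import Pool.Agent.K7.H21.LT.Weak

/-!
# The angular phase
-/

set_option autoImplicit false

open MeasureTheory Set Filter Topology Real

namespace Pool.Agent.K7.H21.LT

open LTd

section

variable {m : ℕ}

/-- the square of the distance to the axis -/
noncomputable def qq (x : Fin (m + 2) → ℝ) : ℝ := x 0 ^ 2 + x 1 ^ 2

/-- `x_0 + i x_1` -/
noncomputable def zz (x : Fin (m + 2) → ℝ) : ℂ := (x 0 : ℂ) + (x 1 : ℂ) * Complex.I

/-- the angular phase `(x_0 + i x_1) / r` -/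
noncomputable def ph (x : Fin (m + 2) → ℝ) : ℂ := (√(qq x))⁻¹ • zz x

/-- the gradient of the angle -/
noncomputable def al (k : Fin (m + 2)) (x : Fin (m + 2) → ℝ) : ℝ :=
  if k = 0 then - x 1 / qq x else if k = 1 then x 0 / qq x else 0

theorem norm_zz_sq (x : Fin (m + 2) → ℝ) : ‖zz x‖ ^ 2 = qq x := by
  rw [zz, qq, Complex.sq_norm, Complex.normSq_add_mul_I]

theorem norm_ph {x : Fin (m + 2) → ℝ} (hx : x ∈ Off m) : ‖ph x‖ = 1 := by
  have hq : 0 < qq x := hx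
  have h1 : ‖zz x‖ = √(qq x) := by
    rw [← norm_zz_sq, Real.sqrt_sq (norm_nonneg _)]
  rw [ph, norm_smul, h1, norm_inv, Real.norm_of_nonneg (Real.sqrt_nonneg _),
    inv_mul_cancel₀ (Real.sqrt_pos.2 hq).ne']

theorem ph_ne {x : Fin (m + 2) → ℝ} (hx : x ∈ Off m) : ph x ≠ 0 := by
  intro h
  have := norm_ph hx
  rw [h, norm_zero] at this
  exact zero_ne_one this

theorem norm_ph_zpow {x : Fin (m + 2) → ℝ} (hx : x ∈ Off m) (a : ℤ) : ‖ph x ^ a‖ = 1 := by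
  rw [norm_zpow, norm_ph hx, one_zpow]

theorem qq_rot (θ : ℝ) (x : Fin (m + 2) → ℝ) : qq (rot θ x) = qq x := rot_sq θ x

theorem ph_rot (θ : ℝ) (x : Fin (m + 2) → ℝ) : ph (rot θ x) = Complex.exp (θ * Complex.I) * ph x := by
  have h : zz (rot θ x) = Complex.exp (θ * Complex.I) * zz x := by
    rw [Complex.exp_mul_I, zz, zz, rot_zero_coord, rot_one_coord]
    push_cast
    linear_combination (-(Complex.sin θ * (x 1 : ℂ))) * Complex.I_sq
  rw [ph, ph, qq_rot, h, mul_smul_comm]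

theorem al_sq {x : Fin (m + 2) → ℝ} (hx : x ∈ Off m) : ∑ k, al k x ^ 2 = (qq x)⁻¹ := by
  have hq : 0 < qq x := hx
  rw [Fin.sum_univ_succ, Fin.sum_univ_succ]
  have h : ∀ i : Fin m, (i.succ.succ : Fin (m + 2)) ≠ 1 := by
    intro i hi
    have := congrArg Fin.val hi
    simp at this
  have h1 : ((0 : Fin (m + 1)).succ : Fin (m + 2)) = 1 := rfl
  have h2 : ∀ i : Fin m, al (i.succ.succ) x ^ 2 = 0 := by
    intro i
    simp [al, h i]
  simp only [h1, h2, Finset.sum_const_zero, add_zero]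
  have h3 : al 0 x = - x 1 / qq x := by simp [al]
  have h4 : al 1 x = x 0 / qq x := by simp [al]
  rw [h3, h4]
  have h5 : qq x = x 0 ^ 2 + x 1 ^ 2 := rfl
  field_simp
  rw [h5]
  ring

theorem al_sq_le {x : Fin (m + 2) → ℝ} (hx : x ∈ Off m) (k : Fin (m + 2)) :
    al k x ^ 2 ≤ (qq x)⁻¹ := by
  rw [← al_sq hx]
  exact Finset.single_le_sum (f := fun k => al k x ^ 2) (fun i _ => sq_nonneg _)
    (Finset.mem_univ k)

/-- `x_0 + i x_1` as a linear map -/
noncomputable def zL : (Fin (m + 2) → ℝ) →L[ℝ] ℂ :=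
  Complex.ofRealCLM.comp (ContinuousLinearMap.proj 0) +
    Complex.I • Complex.ofRealCLM.comp (ContinuousLinearMap.proj 1)

theorem zL_apply (x : Fin (m + 2) → ℝ) : zL x = zz x := by
  simp [zL, zz, mul_comm]

theorem hasFDerivAt_zz (x : Fin (m + 2) → ℝ) : HasFDerivAt (zz : (Fin (m + 2) → ℝ) → ℂ) zL x := by
  have h : (zz : (Fin (m + 2) → ℝ) → ℂ) = fun x => zL x := by
    funext y
    rw [zL_apply]
  rw [h]
  exact zL.hasFDerivAt

/-- the derivative of the square of the distance -/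
noncomputable def qL (x : Fin (m + 2) → ℝ) : (Fin (m + 2) → ℝ) →L[ℝ] ℝ :=
  (2 * x 0) • ContinuousLinearMap.proj 0 + (2 * x 1) • ContinuousLinearMap.proj 1

theorem hasFDerivAt_qq (x : Fin (m + 2) → ℝ) :
    HasFDerivAt (qq : (Fin (m + 2) → ℝ) → ℝ) (qL x) x := by
  have h0 : HasFDerivAt (fun y : Fin (m + 2) → ℝ => y 0) (ContinuousLinearMap.proj 0) x :=
    (ContinuousLinearMap.proj (R := ℝ) (φ := fun _ : Fin (m + 2) => ℝ) 0).hasFDerivAt
  have h1 : HasFDerivAt (fun y : Fin (m + 2) → ℝ => y 1) (ContinuousLinearMap.proj 1) x :=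
    (ContinuousLinearMap.proj (R := ℝ) (φ := fun _ : Fin (m + 2) => ℝ) 1).hasFDerivAt
  have h := (h0.pow 2).add (h1.pow 2)
  refine h.congr_fderiv ?_
  ext v
  simp [qL]

theorem hasFDerivAt_ph {x : Fin (m + 2) → ℝ} (hx : x ∈ Off m) :
    HasFDerivAt (ph : (Fin (m + 2) → ℝ) → ℂ)
      ((√(qq x))⁻¹ • zL + ((-(1 / (2 * √(qq x)) / (√(qq x)) ^ 2)) • qL x).smulRight (zz x)) x := by
  have hq : 0 < qq x := hx
  have h1 : HasDerivAt (fun t : ℝ => (√t)⁻¹) (-(1 / (2 * √(qq x))) / (√(qq x)) ^ 2) (qq x) :=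
    (Real.hasDerivAt_sqrt hq.ne').inv (Real.sqrt_pos.2 hq).ne'
  have h2 : HasFDerivAt (fun y : Fin (m + 2) → ℝ => (√(qq y))⁻¹)
      ((-(1 / (2 * √(qq x))) / (√(qq x)) ^ 2) • qL x) x :=
    h1.comp_hasFDerivAt x (hasFDerivAt_qq x)
  have h3 := h2.smul (hasFDerivAt_zz x)
  refine h3.congr_fderiv ?_
  rw [neg_div]

theorem pdc_ph {x : Fin (m + 2) → ℝ} (hx : x ∈ Off m) (k : Fin (m + 2)) :
    pdc k ph x = (al k x : ℂ) * Complex.I * ph x := by
  have hq : 0 < qq x := hx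
  have hs : 0 < √(qq x) := Real.sqrt_pos.2 hq
  have hs2 : (√(qq x)) ^ 2 = qq x := Real.sq_sqrt hq.le
  have hsC : ((√(qq x) : ℝ) : ℂ) ≠ 0 := by exact_mod_cast hs.ne'
  have hqC : ((qq x : ℝ) : ℂ) ≠ 0 := by exact_mod_cast hq.ne'
  have hq5 : ((qq x : ℝ) : ℂ) = (x 0 : ℂ) ^ 2 + (x 1 : ℂ) ^ 2 := by
    unfold qq
    push_cast
    ring
  unfold pdc
  rw [(hasFDerivAt_ph hx).fderiv]
  simp only [_root_.add_apply, _root_.smul_apply,
    ContinuousLinearMap.smulRight_apply, zL_apply]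
  rw [hs2, ph]
  simp only [Complex.real_smul, smul_eq_mul]
  push_cast
  by_cases h0 : k = 0
  · subst h0
    have e1 : zz (Pi.single (0 : Fin (m + 2)) (1 : ℝ)) = 1 := by simp [zz]
    have e2 : qL x (Pi.single (0 : Fin (m + 2)) (1 : ℝ)) = 2 * x 0 := by simp [qL]
    have e3 : al 0 x = - x 1 / qq x := by simp [al]
    rw [e1, e2, e3, zz]
    push_cast
    field_simp
    rw [hq5]
    linear_combination (x 1 : ℂ) ^ 2 * Complex.I_sq
  by_cases h1 : k = 1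
  · subst h1
    have h01 : (0 : Fin (m + 2)) ≠ 1 := fun h => one_ne h.symm
    have e1 : zz (Pi.single (1 : Fin (m + 2)) (1 : ℝ)) = Complex.I := by simp [zz, h01]
    have e2 : qL x (Pi.single (1 : Fin (m + 2)) (1 : ℝ)) = 2 * x 1 := by simp [qL, h01]
    have e3 : al 1 x = x 0 / qq x := by simp [al]
    rw [e1, e2, e3, zz]
    push_cast
    field_simp
    rw [hq5]
    linear_combination (-(x 0 : ℂ) * (x 1 : ℂ)) * Complex.I_sq
  have e1 : zz (Pi.single k (1 : ℝ)) = 0 := by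
    simp [zz, Pi.single_eq_of_ne (Ne.symm h0), Pi.single_eq_of_ne (Ne.symm h1)]
  have e2 : qL x (Pi.single k (1 : ℝ)) = 0 := by
    simp [qL, Pi.single_eq_of_ne (Ne.symm h0), Pi.single_eq_of_ne (Ne.symm h1)]
  have e3 : al k x = 0 := by simp [al, h0, h1]
  rw [e1, e2, e3]
  simp

theorem contDiffOn_ph : ContDiffOn ℝ 1 (ph : (Fin (m + 2) → ℝ) → ℂ) (Off m) := by
  intro x hx
  have hq : 0 < qq x := hx
  have h0 : ContDiff ℝ 1 (qq : (Fin (m + 2) → ℝ) → ℝ) := by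
    unfold qq
    fun_prop
  have h1 : ContDiff ℝ 1 (zz : (Fin (m + 2) → ℝ) → ℂ) := by
    have h : (zz : (Fin (m + 2) → ℝ) → ℂ) = fun x => zL x := by
      funext y
      rw [zL_apply]
    rw [h]
    exact zL.contDiff
  have h2 : ContDiffAt ℝ 1 (fun y : Fin (m + 2) → ℝ => √(qq y)) x :=
    h0.contDiffAt.sqrt hq.ne'
  exact ((h2.inv (Real.sqrt_pos.2 hq).ne').smul h1.contDiffAt).contDiffWithinAt

theorem contDiffOn_zpow (a : ℤ) :
    ContDiffOn ℝ 1 (fun x : Fin (m + 2) → ℝ => ph x ^ a) (Off m) := by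
  obtain ⟨n, rfl | rfl⟩ := a.eq_nat_or_neg
  · simp only [zpow_natCast]
    exact contDiffOn_ph.pow n
  · simp only [zpow_neg, zpow_natCast]
    exact (contDiffOn_ph.pow n).inv fun x hx => pow_ne_zero n (ph_ne hx)

theorem pdc_mul {f g : (Fin (m + 2) → ℝ) → ℂ} {x : Fin (m + 2) → ℝ} (hf : DifferentiableAt ℝ f x)
    (hg : DifferentiableAt ℝ g x) (k : Fin (m + 2)) :
    pdc k (fun y => f y * g y) x = f x * pdc k g x + pdc k f x * g x := by
  unfold pdc
  have h := (hf.hasFDerivAt.mul hg.hasFDerivAt).fderiv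
  have e : (fun y => f y * g y) = f * g := rfl
  rw [e, h]
  simp [mul_comm]

theorem pdc_zpow {x : Fin (m + 2) → ℝ} (hx : x ∈ Off m) (a : ℤ) (k : Fin (m + 2)) :
    pdc k (fun y => ph y ^ a) x = (a : ℂ) * (al k x : ℂ) * Complex.I * ph x ^ a := by
  have h1 : HasDerivAt (fun z : ℂ => z ^ a) (a * ph x ^ (a - 1)) (ph x) :=
    hasDerivAt_zpow a (ph x) (Or.inl (ph_ne hx))
  have h2 : DifferentiableAt ℝ (ph : (Fin (m + 2) → ℝ) → ℂ) x :=
    (hasFDerivAt_ph hx).differentiableAt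
  have h4 : HasFDerivAt (fun y : Fin (m + 2) → ℝ => ph y ^ a)
      ((a * ph x ^ (a - 1) : ℂ) • fderiv ℝ ph x) x :=
    h1.comp_hasFDerivAt x h2.hasFDerivAt
  unfold pdc
  rw [h4.fderiv]
  simp only [_root_.smul_apply, smul_eq_mul]
  have h5 : fderiv ℝ ph x (Pi.single k 1) = (al k x : ℂ) * Complex.I * ph x := pdc_ph hx k
  rw [h5]
  have h6 : ph x ^ (a - 1) * ph x = ph x ^ a := by
    rw [← zpow_add_one₀ (ph_ne hx), sub_add_cancel]
  linear_combination (a : ℂ) * (al k x : ℂ) * Complex.I * h6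

theorem pdc_vortex {u : (Fin (m + 2) → ℝ) → ℂ} (hu : ContDiffOn ℝ 1 u (Off m))
    {x : Fin (m + 2) → ℝ} (hx : x ∈ Off m) (a : ℤ) (k : Fin (m + 2)) :
    pdc k (fun y => ph y ^ a * u y) x =
      ph x ^ a * (pdc k u x + (a : ℂ) * (al k x : ℂ) * Complex.I * u x) := by
  have h1 : DifferentiableAt ℝ u x :=
    ((hu.differentiableOn one_ne_zero) x hx).differentiableAt (isOpen_Off.mem_nhds hx)
  have h2 : DifferentiableAt ℝ (fun y : Fin (m + 2) → ℝ => ph y ^ a) x :=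
    (((contDiffOn_zpow a).differentiableOn one_ne_zero) x hx).differentiableAt
      (isOpen_Off.mem_nhds hx)
  rw [pdc_mul h2 h1, pdc_zpow hx]
  ring

end

end Pool.Agent.K7.H21.LT
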