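import Mathlib

/-!
# Rotations and dilations in the plane of the first two coordinates
-/

set_option autoImplicit false

open MeasureTheory Set Filter Topology Real

namespace Pool.Agent.K7.H21.LT

/-- the complement of the axis `x_0 = x_1 = 0` -/
def Off (m : ℕ) : Set (Fin (m + 2) → ℝ) := {x | 0 < x 0 ^ 2 + x 1 ^ 2}

/-- the rotation by `θ` in the plane of the first two coordinates -/
noncomputable def rot {m : ℕ} (θ : ℝ) (x : Fin (m + 2) → ℝ) : Fin (m + 2) → ℝ :=
  fun i => if i = 0 then cos θ * x 0 - sin θ * x 1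
    else if i = 1 then sin θ * x 0 + cos θ * x 1 else x i

/-- the dilation by `s` in the plane of the first two coordinates -/
noncomputable def dil {m : ℕ} (s : ℝ) (x : Fin (m + 2) → ℝ) : Fin (m + 2) → ℝ :=
  fun i => if i = 0 then s * x 0 else if i = 1 then s * x 1 else x i

section

variable {m : ℕ}

theorem one_ne : (1 : Fin (m + 2)) ≠ 0 := by
  intro h
  have := congrArg Fin.val h
  simp at this

@[simp] theorem rot_zero_coord (θ : ℝ) (x : Fin (m + 2) → ℝ) :
    rot θ x 0 = cos θ * x 0 - sin θ * x 1 := by simp [rot]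

@[simp] theorem rot_one_coord (θ : ℝ) (x : Fin (m + 2) → ℝ) :
    rot θ x 1 = sin θ * x 0 + cos θ * x 1 := by simp [rot]

theorem rot_coord (θ : ℝ) (x : Fin (m + 2) → ℝ) {i : Fin (m + 2)} (h0 : i ≠ 0) (h1 : i ≠ 1) :
    rot θ x i = x i := by simp [rot, h0, h1]

@[simp] theorem dil_zero_coord (s : ℝ) (x : Fin (m + 2) → ℝ) : dil s x 0 = s * x 0 := by
  simp [dil]

@[simp] theorem dil_one_coord (s : ℝ) (x : Fin (m + 2) → ℝ) : dil s x 1 = s * x 1 := by
  simp [dil]

theorem dil_coord (s : ℝ) (x : Fin (m + 2) → ℝ) {i : Fin (m + 2)} (h0 : i ≠ 0) (h1 : i ≠ 1) :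
    dil s x i = x i := by simp [dil, h0, h1]

theorem isOpen_Off : IsOpen (Off m) := by
  have : Continuous fun x : Fin (m + 2) → ℝ => x 0 ^ 2 + x 1 ^ 2 := by fun_prop
  exact isOpen_lt continuous_const this

theorem ae_Off : ∀ᵐ x : Fin (m + 2) → ℝ, x ∈ Off m := by
  have h : ∀ᵐ x : Fin (m + 2) → ℝ, x 0 ≠ 0 :=
    Measure.ae_eval_ne (fun _ : Fin (m + 2) => (volume : Measure ℝ)) 0 0
  filter_upwards [h] with x hx
  unfold Off
  simp only [mem_ofPred_eq]
  positivity

theorem rot_sq (θ : ℝ) (x : Fin (m + 2) → ℝ) :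
    (rot θ x 0) ^ 2 + (rot θ x 1) ^ 2 = x 0 ^ 2 + x 1 ^ 2 := by
  simp only [rot_zero_coord, rot_one_coord]
  have := Real.sin_sq_add_cos_sq θ
  linear_combination (x 0 ^ 2 + x 1 ^ 2) * this

theorem rot_mem {θ : ℝ} {x : Fin (m + 2) → ℝ} : rot θ x ∈ Off m ↔ x ∈ Off m := by
  unfold Off
  simp only [mem_ofPred_eq, rot_sq]

theorem continuous_rot : Continuous fun p : (Fin (m + 2) → ℝ) × ℝ => rot p.2 p.1 := by
  refine continuous_pi fun i => ?_
  by_cases h0 : i = 0
  · subst h0
    simp only [rot_zero_coord]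
    fun_prop
  by_cases h1 : i = 1
  · subst h1
    simp only [rot_one_coord]
    fun_prop
  simp only [rot_coord _ _ h0 h1]
  fun_prop

theorem continuous_rot_left (x : Fin (m + 2) → ℝ) : Continuous fun θ : ℝ => rot θ x := by
  have h : Continuous fun θ : ℝ => (x, θ) := by fun_prop
  have h2 := (continuous_rot (m := m)).comp h
  exact h2

theorem continuous_rot_right (θ : ℝ) :
    Continuous fun x : Fin (m + 2) → ℝ => (rot θ x : Fin (m + 2) → ℝ) := by
  have h : Continuous fun x : Fin (m + 2) → ℝ => (x, θ) := by fun_prop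
  have h2 := (continuous_rot (m := m)).comp h
  exact h2

/-- the rotation as a linear map -/
noncomputable def rotL (θ : ℝ) : (Fin (m + 2) → ℝ) →ₗ[ℝ] (Fin (m + 2) → ℝ) where
  toFun := rot θ
  map_add' x y := by
    funext i
    by_cases h0 : i = 0
    · subst h0
      simp
      ring
    by_cases h1 : i = 1
    · subst h1
      simp
      ring
    simp [rot_coord _ _ h0 h1]
  map_smul' c x := by
    funext i
    by_cases h0 : i = 0
    · subst h0
      simp
      ring
    by_cases h1 : i = 1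
    · subst h1
      simp
      ring
    simp [rot_coord _ _ h0 h1]

/-- the reflection in the second coordinate -/
noncomputable def flipL : (Fin (m + 2) → ℝ) →ₗ[ℝ] (Fin (m + 2) → ℝ) where
  toFun x := fun i => if i = 1 then - x 1 else x i
  map_add' x y := by
    funext i
    by_cases h1 : i = 1
    · subst h1
      simp
      ring
    simp [h1]
  map_smul' c x := by
    funext i
    by_cases h1 : i = 1
    · subst h1
      simp
    simp [h1]

theorem rotL_neg (θ : ℝ) :
    (rotL (-θ) : (Fin (m + 2) → ℝ) →ₗ[ℝ] (Fin (m + 2) → ℝ)) = flipL ∘ₗ rotL θ ∘ₗ flipL := by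
  refine LinearMap.ext fun x => funext fun i => ?_
  show rot (-θ) x i = flipL (rot θ (flipL x)) i
  have h01 : (0 : Fin (m + 2)) ≠ 1 := fun h => one_ne h.symm
  by_cases h0 : i = 0
  · subst h0
    simp [flipL, h01]
  by_cases h1 : i = 1
  · subst h1
    simp [flipL, h01]
    ring
  simp [flipL, rot_coord _ _ h0 h1, h1]

theorem flipL_flipL :
    (flipL : (Fin (m + 2) → ℝ) →ₗ[ℝ] (Fin (m + 2) → ℝ)) ∘ₗ flipL = LinearMap.id := by
  refine LinearMap.ext fun x => funext fun i => ?_
  by_cases h1 : i = 1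
  · subst h1
    simp [flipL]
  simp [flipL, h1]

theorem rotL_rotL (θ : ℝ) :
    (rotL (-θ) : (Fin (m + 2) → ℝ) →ₗ[ℝ] (Fin (m + 2) → ℝ)) ∘ₗ rotL θ = LinearMap.id := by
  refine LinearMap.ext fun x => funext fun i => ?_
  show rot (-θ) (rot θ x) i = x i
  have hs := Real.sin_sq_add_cos_sq θ
  by_cases h0 : i = 0
  · subst h0
    simp
    linear_combination x 0 * hs
  by_cases h1 : i = 1
  · subst h1
    simp
    linear_combination x 1 * hs
  simp [rot_coord _ _ h0 h1]

theorem abs_det_rotL (θ : ℝ) :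
    |LinearMap.det (rotL θ : (Fin (m + 2) → ℝ) →ₗ[ℝ] (Fin (m + 2) → ℝ))| = 1 := by
  set D := LinearMap.det (rotL θ : (Fin (m + 2) → ℝ) →ₗ[ℝ] (Fin (m + 2) → ℝ)) with hD
  set J := LinearMap.det (flipL : (Fin (m + 2) → ℝ) →ₗ[ℝ] (Fin (m + 2) → ℝ)) with hJ
  have h1 : J * J = 1 := by
    rw [hJ, ← LinearMap.det_comp, flipL_flipL, LinearMap.det_id]
  have h2 : J * (D * J) * D = 1 := by
    have := congrArg LinearMap.det (rotL_rotL (m := m) θ)
    rw [rotL_neg, LinearMap.det_comp, LinearMap.det_comp, LinearMap.det_comp,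
      LinearMap.det_id] at this
    exact this
  have h3 : D ^ 2 = 1 := by linear_combination h2 - D ^ 2 * h1
  have h4 : |D| ^ 2 = 1 := by rw [sq_abs, h3]
  nlinarith [abs_nonneg D]

theorem measurePreserving_rot (θ : ℝ) :
    MeasurePreserving (rot θ : (Fin (m + 2) → ℝ) → (Fin (m + 2) → ℝ)) := by
  refine ⟨(continuous_rot_right θ).measurable, ?_⟩
  have hne : LinearMap.det (rotL θ : (Fin (m + 2) → ℝ) →ₗ[ℝ] (Fin (m + 2) → ℝ)) ≠ 0 := by
    intro h
    have := abs_det_rotL (m := m) θ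
    rw [h, abs_zero] at this
    exact zero_ne_one this
  have h := Real.map_linearMap_volume_pi_eq_smul_volume_pi hne
  rw [abs_inv, abs_det_rotL, inv_one, ENNReal.ofReal_one, one_smul] at h
  exact h

/-- averages over rotations -/
theorem lintegral_rot {F : (Fin (m + 2) → ℝ) → ENNReal} (hF : Measurable F) :
    ENNReal.ofReal (2 * π) * ∫⁻ x, F x =
      ∫⁻ x, ∫⁻ θ in Ioc 0 (2 * π), F (rot θ x) := by
  have hm : Measurable fun p : (Fin (m + 2) → ℝ) × ℝ => F (rot p.2 p.1) :=
    hF.comp continuous_rot.measurable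
  rw [lintegral_lintegral_swap (f := fun x θ => F (rot θ x)) hm.aemeasurable]
  have h : ∀ θ : ℝ, ∫⁻ x : Fin (m + 2) → ℝ, F (rot θ x) = ∫⁻ x, F x := fun θ =>
    (measurePreserving_rot θ).lintegral_comp hF
  simp only [h]
  rw [lintegral_const, Measure.restrict_apply_univ, Real.volume_Ioc, sub_zero, mul_comm]

theorem measurable_indicator {f : (Fin (m + 2) → ℝ) → ℝ} (hf : ContinuousOn f (Off m)) :
    Measurable ((Off m).indicator f) := by
  classical
  rw [← Set.piecewise_eq_indicator]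
  exact hf.measurable_piecewise continuousOn_const isOpen_Off.measurableSet

theorem ae_indicator {β : Type*} [Zero β] (f : (Fin (m + 2) → ℝ) → β) :
    (Off m).indicator f =ᵐ[volume] f := by
  filter_upwards [ae_Off] with x hx
  exact Set.indicator_of_mem hx f

theorem continuous_comp_rot {β : Type*} [TopologicalSpace β] {f : (Fin (m + 2) → ℝ) → β}
    (hf : ContinuousOn f (Off m)) {x : Fin (m + 2) → ℝ} (hx : x ∈ Off m) :
    Continuous fun θ => f (rot θ x) :=
  hf.comp_continuous (continuous_rot_left x) fun _ => rot_mem.2 hx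

/-- comparison of integrals by averages over rotations -/
theorem avg_le {F H : (Fin (m + 2) → ℝ) → ℝ} (hF : ContinuousOn F (Off m))
    (hH : ContinuousOn H (Off m)) (hF0 : ∀ x ∈ Off m, 0 ≤ F x) (hH0 : ∀ x ∈ Off m, 0 ≤ H x)
    (hHi : Integrable H) {C : ℝ} (hC : 0 ≤ C)
    (hle : ∀ x ∈ Off m, ∫ θ in (0 : ℝ)..(2 * π), F (rot θ x) ≤
      C * ∫ θ in (0 : ℝ)..(2 * π), H (rot θ x)) :
    Integrable F ∧ ∫ x, F x ≤ C * ∫ x, H x := by
  have hp : (0 : ℝ) < 2 * π := Real.two_pi_pos
  set F' := (Off m).indicator F with hF'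
  set H' := (Off m).indicator H with hH'
  have hFm := measurable_indicator hF
  have hHm := measurable_indicator hH
  have hF'0 : ∀ x, 0 ≤ F' x := fun x => Set.indicator_nonneg hF0 x
  have hH'0 : ∀ x, 0 ≤ H' x := fun x => Set.indicator_nonneg hH0 x
  have hH'i : Integrable H' := hHi.congr (ae_indicator H).symm
  have key : ∀ {f : (Fin (m + 2) → ℝ) → ℝ} (_ : ContinuousOn f (Off m))
      (_ : ∀ x ∈ Off m, 0 ≤ f x) {x : Fin (m + 2) → ℝ} (_ : x ∈ Off m),
      ∫⁻ θ in Ioc 0 (2 * π), ENNReal.ofReal ((Off m).indicator f (rot θ x)) =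
        ENNReal.ofReal (∫ θ in (0 : ℝ)..(2 * π), f (rot θ x)) := by
    intro f hf hf0 x hx
    have hc := continuous_comp_rot hf hx
    have he : ∀ θ, (Off m).indicator f (rot θ x) = f (rot θ x) := fun θ =>
      Set.indicator_of_mem (rot_mem.2 hx) f
    simp only [he]
    rw [intervalIntegral.integral_of_le hp.le, ofReal_integral_eq_lintegral_ofReal]
    · exact (hc.integrableOn_Icc).mono_set Ioc_subset_Icc_self
    · exact Eventually.of_forall fun θ => hf0 _ (rot_mem.2 hx)
  have h1 : ENNReal.ofReal (2 * π) * ∫⁻ x, ENNReal.ofReal (F' x) ≤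
      ENNReal.ofReal (2 * π) * (ENNReal.ofReal C * ∫⁻ x, ENNReal.ofReal (H' x)) := by
    rw [mul_left_comm, lintegral_rot hFm.ennreal_ofReal, lintegral_rot hHm.ennreal_ofReal,
      ← lintegral_const_mul' _ _ ENNReal.ofReal_ne_top]
    refine lintegral_mono_ae ?_
    filter_upwards [ae_Off] with x hx
    rw [key hF hF0 hx, key hH hH0 hx, ← ENNReal.ofReal_mul hC]
    exact ENNReal.ofReal_le_ofReal (hle x hx)
  have h2 : ∫⁻ x, ENNReal.ofReal (F' x) ≤ ENNReal.ofReal C * ∫⁻ x, ENNReal.ofReal (H' x) :=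
    (ENNReal.mul_le_mul_iff_right (by simpa using hp) ENNReal.ofReal_ne_top).1 h1
  have h3 : ∫⁻ x, ENNReal.ofReal (H' x) = ENNReal.ofReal (∫ x, H' x) :=
    (ofReal_integral_eq_lintegral_ofReal hH'i (Eventually.of_forall hH'0)).symm
  rw [h3, ← ENNReal.ofReal_mul hC] at h2
  have hF'i : Integrable F' := by
    refine ⟨hFm.aestronglyMeasurable, ?_⟩
    rw [hasFiniteIntegral_iff_ofReal (Eventually.of_forall hF'0)]
    exact lt_of_le_of_lt h2 ENNReal.ofReal_lt_top
  refine ⟨hF'i.congr (ae_indicator F), ?_⟩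
  have h4 : ∫⁻ x, ENNReal.ofReal (F' x) = ENNReal.ofReal (∫ x, F' x) :=
    (ofReal_integral_eq_lintegral_ofReal hF'i (Eventually.of_forall hF'0)).symm
  rw [h4] at h2
  have h5 := (ENNReal.ofReal_le_ofReal_iff (mul_nonneg hC (integral_nonneg hH'0))).1 h2
  rw [integral_congr_ae (ae_indicator F), integral_congr_ae (ae_indicator H)] at h5
  exact h5

/-! ### dilations -/

/-- the dilation as a diagonal matrix -/
theorem dil_eq (s : ℝ) : (dil s : (Fin (m + 2) → ℝ) → (Fin (m + 2) → ℝ)) =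
    Matrix.toLin' (Matrix.diagonal fun i : Fin (m + 2) => if i = 0 then s
      else if i = 1 then s else 1) := by
  funext x i
  rw [Matrix.toLin'_apply, Matrix.mulVec_diagonal]
  by_cases h0 : i = 0
  · subst h0
    simp
  by_cases h1 : i = 1
  · subst h1
    simp
  simp [dil_coord _ _ h0 h1, h0, h1]

theorem det_dil (s : ℝ) : (Matrix.diagonal fun i : Fin (m + 2) => if i = 0 then s
      else if i = 1 then s else 1 : Matrix (Fin (m + 2)) (Fin (m + 2)) ℝ).det = s ^ 2 := by
  rw [Matrix.det_diagonal, Fin.prod_univ_succ, Fin.prod_univ_succ]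
  have h : ∀ i : Fin m, (i.succ.succ : Fin (m + 2)) ≠ 1 := by
    intro i hi
    have := congrArg Fin.val hi
    simp at this
  have h1 : ((0 : Fin (m + 1)).succ : Fin (m + 2)) = 1 := rfl
  simp only [if_true, h1, Fin.succ_ne_zero, if_false, one_ne, h, Finset.prod_const_one]
  ring

theorem map_dil {s : ℝ} (hs : 0 < s) :
    Measure.map (dil s : (Fin (m + 2) → ℝ) → (Fin (m + 2) → ℝ)) volume =
      ENNReal.ofReal ((s ^ 2)⁻¹) • volume := by
  rw [dil_eq, Real.map_matrix_volume_pi_eq_smul_volume_pi, det_dil, abs_of_pos (by positivity)]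
  rw [det_dil]
  positivity

theorem continuous_dil (s : ℝ) :
    Continuous (dil s : (Fin (m + 2) → ℝ) → (Fin (m + 2) → ℝ)) := by
  refine continuous_pi fun i => ?_
  by_cases h0 : i = 0
  · subst h0
    simp only [dil_zero_coord]
    fun_prop
  by_cases h1 : i = 1
  · subst h1
    simp only [dil_one_coord]
    fun_prop
  simp only [dil_coord _ _ h0 h1]
  fun_prop

theorem dil_dil {s : ℝ} (hs : s ≠ 0) (x : Fin (m + 2) → ℝ) : dil s (dil s⁻¹ x) = x := by
  funext i
  by_cases h0 : i = 0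
  · subst h0
    simp [hs]
  by_cases h1 : i = 1
  · subst h1
    simp [hs]
  simp [dil_coord _ _ h0 h1]

/-- the dilation as a homeomorphism -/
noncomputable def dilH {s : ℝ} (hs : s ≠ 0) : (Fin (m + 2) → ℝ) ≃ₜ (Fin (m + 2) → ℝ) where
  toFun := dil s
  invFun := dil s⁻¹
  left_inv x := by
    have := dil_dil (inv_ne_zero hs) x
    rwa [inv_inv] at this
  right_inv x := dil_dil hs x
  continuous_toFun := continuous_dil s
  continuous_invFun := continuous_dil s⁻¹

theorem integral_dil {β : Type*} [NormedAddCommGroup β] [NormedSpace ℝ β] {s : ℝ} (hs : 0 < s)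
    (f : (Fin (m + 2) → ℝ) → β) :
    ∫ x, f (dil s x) = (s ^ 2)⁻¹ • ∫ x, f x := by
  have h := (dilH (m := m) hs.ne').measurableEmbedding.integral_map (μ := volume) f
  have e : ⇑(dilH (m := m) hs.ne') = dil s := rfl
  rw [e, map_dil hs, integral_smul_measure, ENNReal.toReal_ofReal (by positivity)] at h
  exact h.symm

theorem integrable_dil {β : Type*} [NormedAddCommGroup β] {s : ℝ} (hs : 0 < s)
    {f : (Fin (m + 2) → ℝ) → β} (hf : Integrable f) : Integrable fun x => f (dil s x) := by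
  have e : ⇑(dilH (m := m) hs.ne') = dil s := rfl
  have h1 : Integrable f (Measure.map (⇑(dilH (m := m) hs.ne')) volume) := by
    rw [e, map_dil hs]
    exact hf.smul_measure ENNReal.ofReal_ne_top
  exact (dilH (m := m) hs.ne').measurableEmbedding.integrable_map_iff.1 h1

end

end Pool.Agent.K7.H21.LT
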