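import Pool.Agent.K7.H21.LT.Iso

/-!
# The final inequality: anisotropic scaling
-/

set_option autoImplicit false

open MeasureTheory Set Filter Topology Real

namespace Pool.Agent.K7.H21.LT

open LTd

section

variable {m : ℕ}

/-- the dilation as a continuous linear map -/
noncomputable def dilL (s : ℝ) : (Fin (m + 2) → ℝ) →L[ℝ] (Fin (m + 2) → ℝ) where
  toFun := dil s
  map_add' x y := by
    funext i
    by_cases h0 : i = 0
    · subst h0
      simp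
      ring
    by_cases h1 : i = 1
    · subst h1
      simp
      ring
    simp [dil_coord _ _ h0 h1]
  map_smul' c x := by
    funext i
    by_cases h0 : i = 0
    · subst h0
      simp
      ring
    by_cases h1 : i = 1
    · subst h1
      simp
      ring
    simp [dil_coord _ _ h0 h1]
  cont := continuous_dil s

/-- the factor of the `k`-th partial derivative -/
noncomputable def fk (s : ℝ) (k : Fin (m + 2)) : ℝ := if k = 0 ∨ k = 1 then s else 1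

theorem dilL_single (s : ℝ) (k : Fin (m + 2)) :
    dilL s (Pi.single k (1 : ℝ)) = fk s k • (Pi.single k (1 : ℝ) : Fin (m + 2) → ℝ) := by
  show dil s (Pi.single k (1 : ℝ)) = _
  have h01 : (0 : Fin (m + 2)) ≠ 1 := fun h => one_ne h.symm
  funext i
  by_cases h0 : i = 0
  · subst h0
    rw [dil_zero_coord]
    by_cases hk : k = 0
    · subst hk
      simp [fk]
    · rw [Pi.smul_apply, Pi.single_eq_of_ne (Ne.symm hk)]
      simp
  by_cases h1 : i = 1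
  · subst h1
    rw [dil_one_coord]
    by_cases hk : k = 1
    · subst hk
      simp [fk]
    · rw [Pi.smul_apply, Pi.single_eq_of_ne (Ne.symm hk)]
      simp
  rw [dil_coord _ _ h0 h1]
  by_cases hk : i = k
  · subst hk
    simp [fk, h0, h1]
  · rw [Pi.smul_apply, Pi.single_eq_of_ne hk]
    simp

theorem dil_mem {s : ℝ} (hs : 0 < s) {x : Fin (m + 2) → ℝ} : dil s x ∈ Off m ↔ x ∈ Off m := by
  unfold Off
  simp only [mem_ofPred_eq, dil_zero_coord, dil_one_coord]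
  have : (s * x 0) ^ 2 + (s * x 1) ^ 2 = s ^ 2 * (x 0 ^ 2 + x 1 ^ 2) := by ring
  rw [this]
  constructor
  · intro h
    exact (mul_pos_iff_of_pos_left (by positivity)).1 h
  · intro h
    positivity

theorem dil_rot (s θ : ℝ) (x : Fin (m + 2) → ℝ) : dil s (rot θ x) = rot θ (dil s x) := by
  funext i
  by_cases h0 : i = 0
  · subst h0
    simp
    ring
  by_cases h1 : i = 1
  · subst h1
    simp
    ring
  simp [dil_coord _ _ h0 h1, rot_coord _ _ h0 h1]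

theorem pdc_dil {u : (Fin (m + 2) → ℝ) → ℂ} (hu : ContDiffOn ℝ 1 u (Off m)) {s : ℝ} (hs : 0 < s)
    {x : Fin (m + 2) → ℝ} (hx : x ∈ Off m) (k : Fin (m + 2)) :
    pdc k (fun y => (s : ℂ) * u (dil s y)) x = (s * fk s k : ℝ) * pdc k u (dil s x) := by
  have hx' : dil s x ∈ Off m := (dil_mem hs).2 hx
  have h1 : DifferentiableAt ℝ u (dil s x) :=
    ((hu.differentiableOn one_ne_zero) _ hx').differentiableAt (isOpen_Off.mem_nhds hx')
  have h2 : HasFDerivAt (fun y : Fin (m + 2) → ℝ => u (dil s y))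
      ((fderiv ℝ u (dil s x)).comp (dilL s)) x :=
    h1.hasFDerivAt.comp x (dilL s).hasFDerivAt
  have h3 := h2.const_mul (s : ℂ)
  unfold pdc
  rw [h3.fderiv]
  rw [_root_.smul_apply, ContinuousLinearMap.comp_apply, dilL_single, map_smul]
  simp only [Complex.real_smul, smul_eq_mul]
  push_cast
  ring

theorem sys_dil {N : ℕ} {M : Set ℤ} {u : Fin N → (Fin (m + 2) → ℝ) → ℂ} (hu : Sys M u) {s : ℝ}
    (hs : 0 < s) : Sys M (fun n x => (s : ℂ) * u n (dil s x)) := by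
  have hsm : ∀ n, ContDiffOn ℝ 1 (fun x : Fin (m + 2) → ℝ => (s : ℂ) * u n (dil s x)) (Off m) := by
    intro n
    refine contDiffOn_const.mul ?_
    exact (hu.smooth n).comp (dilL s).contDiff.contDiffOn fun x hx => (dil_mem hs).2 hx
  refine ⟨hsm, fun n x hx k hk => ?_, fun n => ?_, fun n k => ?_, fun n n' => ?_⟩
  · simp only [dil_rot]
    exact (hu.mom n).phase ((dil_mem hs).2 hx) _ hk
  · have h := (integrable_dil hs (hu.int n)).const_mul (s ^ 2)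
    refine h.congr (Eventually.of_forall fun x => ?_)
    simp only
    rw [norm_mul, Complex.norm_real, Real.norm_of_nonneg hs.le, mul_pow]
  · have h := (integrable_dil hs (hu.grad n k)).const_mul ((s * fk s k) ^ 2)
    refine h.congr ?_
    filter_upwards [ae_Off] with x hx
    rw [pdc_dil (hu.smooth n) hs hx, norm_mul, Complex.norm_real, Real.norm_eq_abs,
      mul_pow |s * fk s k|, sq_abs]
  · have e : ∀ x, (starRingEnd ℂ) ((s : ℂ) * u n (dil s x)) * ((s : ℂ) * u n' (dil s x)) =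
        ((s ^ 2 : ℝ) : ℂ) * ((starRingEnd ℂ) (u n (dil s x)) * u n' (dil s x)) := by
      intro x
      rw [map_mul, Complex.conj_ofReal]
      push_cast
      ring
    simp only [e]
    rw [integral_const_mul, integral_dil hs fun x => (starRingEnd ℂ) (u n x) * u n' x, hu.orth,
      Complex.real_smul]
    have : (s : ℂ) ≠ 0 := by exact_mod_cast hs.ne'
    push_cast
    rw [← mul_assoc, mul_inv_cancel₀ (pow_ne_zero 2 this), one_mul]

theorem energy_dil {u : (Fin (m + 2) → ℝ) → ℂ} (hu : ContDiffOn ℝ 1 u (Off m)) {s : ℝ}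
    (hs : 0 < s) (k : Fin (m + 2)) :
    ∫ x, ‖pdc k (fun y => (s : ℂ) * u (dil s y)) x‖ ^ 2 = fk s k ^ 2 * ∫ x, ‖pdc k u x‖ ^ 2 := by
  have e : ∀ᵐ x : Fin (m + 2) → ℝ, ‖pdc k (fun y => (s : ℂ) * u (dil s y)) x‖ ^ 2 =
      (s * fk s k) ^ 2 * ‖pdc k u (dil s x)‖ ^ 2 := by
    filter_upwards [ae_Off] with x hx
    rw [pdc_dil hu hs hx, norm_mul, Complex.norm_real, Real.norm_eq_abs, mul_pow, sq_abs]
  rw [integral_congr_ae e, integral_const_mul, integral_dil hs fun x => ‖pdc k u x‖ ^ 2,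
    smul_eq_mul]
  field_simp

theorem sum_fk (s : ℝ) (T : Fin (m + 2) → ℝ) :
    ∑ k, fk s k ^ 2 * T k = (∑ k, T k) + (s ^ 2 - 1) * (T 0 + T 1) := by
  rw [Fin.sum_univ_succ, Fin.sum_univ_succ, Fin.sum_univ_succ (f := T),
    Fin.sum_univ_succ (f := fun i : Fin (m + 1) => T i.succ)]
  have h : ∀ i : Fin m, (i.succ.succ : Fin (m + 2)) ≠ 1 := by
    intro i hi
    have := congrArg Fin.val hi
    simp at this
  have h1 : ((0 : Fin (m + 1)).succ : Fin (m + 2)) = 1 := rfl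
  have h2 : ∀ i : Fin m, fk s (i.succ.succ) = 1 := by
    intro i
    simp [fk, h i]
  have h3 : fk s (0 : Fin (m + 2)) = s := by simp [fk]
  have h4 : fk s (1 : Fin (m + 2)) = s := by simp [fk]
  simp only [h1, h2, h3, h4]
  ring_nf

/-- the cost of the shifts -/
noncomputable def kap (A : Finset ℤ) (μ : ℝ) : ℝ :=
  1 + (∑ a ∈ A, (a : ℝ) ^ 2) / (A.card * μ ^ 2)

/-- **The kinetic inequality for systems with planar angular momenta in `M`.** -/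
theorem main {N : ℕ} {M : Set ℤ} {u : Fin N → (Fin (m + 2) → ℝ) → ℂ} (hu : Sys M u)
    {μ : ℝ} (hμ : 0 < μ) (hM : ∀ k ∈ M, μ ≤ |(k : ℝ)|)
    {A : Finset ℤ} (hA : A.Nonempty) {G : ℕ} (hG : 0 < G) (hS : Sep M A G)
    (hS' : Sep M (A.map (Equiv.neg ℤ).toEmbedding) G) :
    Integrable (fun x => (∑ n, ‖u n x‖ ^ 2) ^ (1 + 2 / ((m + 2 : ℕ) : ℝ))) ∧
    (3 * (A.card : ℝ) ^ 2 / ((G : ℝ) ^ 2 * kap A μ ^ 2)) ^ (1 / ((m + 2 : ℕ) : ℝ)) * Kcl (m + 2) *
        ∫ x, (∑ n, ‖u n x‖ ^ 2) ^ (1 + 2 / ((m + 2 : ℕ) : ℝ)) ≤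
      ∑ n, ∑ k, ∫ x, ‖pdc k (u n) x‖ ^ 2 := by
  refine ⟨(iso hu hμ hM hA hG hS hS').1, ?_⟩
  set κ := kap A μ with hκ
  have hcard : 0 < (A.card : ℝ) := by exact_mod_cast hA.card_pos
  have hGp : (0 : ℝ) < G := by exact_mod_cast hG
  have hsum0 : 0 ≤ ∑ a ∈ A, (a : ℝ) ^ 2 := Finset.sum_nonneg fun a _ => sq_nonneg _
  have hκ0 : 0 < κ := by
    rw [hκ, kap]
    positivity
  set s : ℝ := (√κ)⁻¹ with hs
  have hs0 : 0 < s := inv_pos.2 (Real.sqrt_pos.2 hκ0)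
  have hs2 : s ^ 2 = κ⁻¹ := by rw [hs, inv_pow, Real.sq_sqrt hκ0.le]
  have h := (iso (sys_dil hu hs0) hμ hM hA hG hS hS').2
  set p : ℝ := 1 + 2 / ((m + 2 : ℕ) : ℝ) with hp
  have hρ : ∀ x, (∑ n, ‖(s : ℂ) * u n (dil s x)‖ ^ 2) ^ p =
      (s ^ 2) ^ p * (∑ n, ‖u n (dil s x)‖ ^ 2) ^ p := by
    intro x
    rw [← Real.mul_rpow (sq_nonneg s) (Finset.sum_nonneg fun n _ => sq_nonneg _), Finset.mul_sum]
    congr 1
    refine Finset.sum_congr rfl fun n _ => ?_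
    rw [norm_mul, Complex.norm_real, Real.norm_of_nonneg hs0.le, mul_pow]
  simp only [hρ] at h
  rw [integral_const_mul, integral_dil hs0 fun x => (∑ n, ‖u n x‖ ^ 2) ^ p, smul_eq_mul] at h
  set I := ∫ x, (∑ n, ‖u n x‖ ^ 2) ^ p with hI
  have hT : ∀ n, ∑ k, ∫ x, ‖pdc k (fun y => (s : ℂ) * u n (dil s y)) x‖ ^ 2 =
      (∑ k, ∫ x, ‖pdc k (u n) x‖ ^ 2) + (s ^ 2 - 1) * ((∫ x, ‖pdc 0 (u n) x‖ ^ 2) +
        ∫ x, ‖pdc 1 (u n) x‖ ^ 2) := by
    intro n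
    simp only [energy_dil (hu.smooth n) hs0]
    exact sum_fk s fun k => ∫ x, ‖pdc k (u n) x‖ ^ 2
  have hP : ∀ n, ∫ x, (‖pdc 0 (fun y => (s : ℂ) * u n (dil s y)) x‖ ^ 2 +
      ‖pdc 1 (fun y => (s : ℂ) * u n (dil s y)) x‖ ^ 2) =
      s ^ 2 * ((∫ x, ‖pdc 0 (u n) x‖ ^ 2) + ∫ x, ‖pdc 1 (u n) x‖ ^ 2) := by
    intro n
    rw [integral_add ((sys_dil hu hs0).grad n 0) ((sys_dil hu hs0).grad n 1),
      energy_dil (hu.smooth n) hs0, energy_dil (hu.smooth n) hs0]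
    simp [fk]
    ring
  simp only [hT, hP] at h
  rw [Finset.sum_add_distrib, ← Finset.mul_sum, ← Finset.mul_sum] at h
  set T := ∑ n, ∑ k, ∫ x, ‖pdc k (u n) x‖ ^ 2 with hTd
  set P := ∑ n, ((∫ x, ‖pdc 0 (u n) x‖ ^ 2) + ∫ x, ‖pdc 1 (u n) x‖ ^ 2) with hPd
  have hR : (A.card : ℝ) * (T + (s ^ 2 - 1) * P) +
      (∑ a ∈ A, (a : ℝ) ^ 2) * (μ ^ 2)⁻¹ * (s ^ 2 * P) = A.card * T := by
    have e1 : (A.card : ℝ) * κ = A.card + (∑ a ∈ A, (a : ℝ) ^ 2) * (μ ^ 2)⁻¹ := by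
      rw [hκ, kap]
      field_simp
    have e2 : s ^ 2 * κ = 1 := by rw [hs2, inv_mul_cancel₀ hκ0.ne']
    linear_combination (-(s ^ 2 * P)) * e1 + A.card * P * e2
  rw [hR] at h
  have hd0 : (0 : ℝ) < ((m + 2 : ℕ) : ℝ) := by positivity
  have hL : (3 / (G : ℝ) ^ 2) ^ (1 / ((m + 2 : ℕ) : ℝ)) * Kcl (m + 2) *
      ((A.card : ℝ) ^ p * ((s ^ 2) ^ p * ((s ^ 2)⁻¹ * I))) =
      A.card * ((3 * (A.card : ℝ) ^ 2 / ((G : ℝ) ^ 2 * κ ^ 2)) ^ (1 / ((m + 2 : ℕ) : ℝ)) *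
        Kcl (m + 2) * I) := by
    have e1 : (A.card : ℝ) ^ p = A.card * (A.card : ℝ) ^ (2 / ((m + 2 : ℕ) : ℝ)) := by
      rw [hp, Real.rpow_add hcard, Real.rpow_one]
    have e2 : (s ^ 2) ^ p * (s ^ 2)⁻¹ = (κ⁻¹) ^ (2 / ((m + 2 : ℕ) : ℝ)) := by
      rw [hs2, hp, Real.rpow_add (inv_pos.2 hκ0), Real.rpow_one]
      field_simp
    have e3 : (3 * (A.card : ℝ) ^ 2 / ((G : ℝ) ^ 2 * κ ^ 2)) ^ (1 / ((m + 2 : ℕ) : ℝ)) =
        (3 / (G : ℝ) ^ 2) ^ (1 / ((m + 2 : ℕ) : ℝ)) * ((A.card : ℝ) ^ (2 / ((m + 2 : ℕ) : ℝ)) *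
          (κ⁻¹) ^ (2 / ((m + 2 : ℕ) : ℝ))) := by
      rw [show (3 * (A.card : ℝ) ^ 2 / ((G : ℝ) ^ 2 * κ ^ 2)) =
        (3 / (G : ℝ) ^ 2) * ((A.card * κ⁻¹) ^ (2 : ℝ)) by
          rw [Real.rpow_two]
          field_simp]
      rw [Real.mul_rpow (by positivity) (by positivity), ← Real.rpow_mul (by positivity),
        ← Real.mul_rpow hcard.le (inv_pos.2 hκ0).le]
      congr 2
      ring
    rw [e1, e3]
    calc _ = (3 / (G : ℝ) ^ 2) ^ (1 / ((m + 2 : ℕ) : ℝ)) * Kcl (m + 2) *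
        (A.card * (A.card : ℝ) ^ (2 / ((m + 2 : ℕ) : ℝ)) * (((s ^ 2) ^ p * (s ^ 2)⁻¹) * I)) := by
          ring
      _ = _ := by
          rw [e2]
          ring
  rw [hL] at h
  exact le_of_mul_le_mul_left h hcard

end

end Pool.Agent.K7.H21.LT
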