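import Pool.Agent.Helper717.LT.Defs
import Pool.Agent.K7.H21.LT.Rot

/-!
# Functions which are continuously differentiable off the axis are weakly differentiable
-/

set_option autoImplicit false

open MeasureTheory Set Filter Topology Real

namespace Pool.Agent.K7.H21.LT

open LTd

/-- the partial derivative of a complex function -/
noncomputable def pdc {n : ℕ} (k : Fin n) (w : (Fin n → ℝ) → ℂ) (x : Fin n → ℝ) : ℂ :=
  fderiv ℝ w x (Pi.single k 1)

section

variable {m : ℕ}

/-- the line in the direction `k` -/
def line (k : Fin (m + 2)) (t : ℝ) (y : Fin (m + 1) → ℝ) : Fin (m + 2) → ℝ := k.insertNth t y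

theorem line_deriv (k : Fin (m + 2)) (t : ℝ) (y : Fin (m + 1) → ℝ) :
    HasDerivAt (fun t => line k t y) (Pi.single k (1 : ℝ) : Fin (m + 2) → ℝ) t := by
  rw [hasDerivAt_pi]
  intro i
  refine Fin.succAboveCases k ?_ (fun j => ?_) i
  · simp only [line, Fin.insertNth_apply_same, Pi.single_eq_same]
    exact hasDerivAt_id t
  · simp only [line, Fin.insertNth_apply_succAbove]
    rw [Pi.single_eq_of_ne (Fin.succAbove_ne k j)]
    exact hasDerivAt_const t _

theorem line_mem (k : Fin (m + 2)) (t : ℝ) {y : Fin (m + 1) → ℝ} (hy : y 0 ≠ 0) :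
    line k t y ∈ Off m := by
  unfold Off
  simp only [mem_ofPred_eq]
  by_cases hk : k = 0
  · subst hk
    have h1 : line (0 : Fin (m + 2)) t y 1 = y 0 := by
      simp [line]
    rw [h1]
    positivity
  · have h0 : line k t y 0 = y 0 := by
      have := Fin.insertNth_apply_succAbove (α := fun _ => ℝ) k t y 0
      rw [Fin.succAbove_ne_zero_zero hk] at this
      exact this
    rw [h0]
    positivity

theorem continuous_line (k : Fin (m + 2)) (y : Fin (m + 1) → ℝ) :
    Continuous fun t => line k t y :=
  continuous_iff_continuousAt.2 fun t => (line_deriv k t y).continuousAt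

/-- integration by parts along the lines which do not meet the axis -/
theorem integral_line {w : (Fin (m + 2) → ℝ) → ℂ} (hw : ContDiffOn ℝ 1 w (Off m))
    (k : Fin (m + 2)) {φ : (Fin (m + 2) → ℝ) → ℝ} (hφ : ContDiff ℝ (⊤ : ℕ∞) φ)
    (hc : HasCompactSupport φ) {y : Fin (m + 1) → ℝ} (hy : y 0 ≠ 0) :
    ∫ t, (w (line k t y) * (pd k φ (line k t y) : ℂ) + pdc k w (line k t y) * (φ (line k t y) : ℂ)) =
      0 := by
  have hdw : ∀ t, HasDerivAt (fun t => w (line k t y)) (pdc k w (line k t y)) t := by
    intro t
    have h1 : DifferentiableAt ℝ w (line k t y) :=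
      ((hw.differentiableOn one_ne_zero) _ (line_mem k t hy)).differentiableAt
        (isOpen_Off.mem_nhds (line_mem k t hy))
    exact h1.hasFDerivAt.comp_hasDerivAt t (line_deriv k t y)
  have hdφ : ∀ t, HasDerivAt (fun t => φ (line k t y)) (pd k φ (line k t y)) t := by
    intro t
    have h1 : DifferentiableAt ℝ φ (line k t y) :=
      (hφ.differentiable (by simp)) _
    exact h1.hasFDerivAt.comp_hasDerivAt t (line_deriv k t y)
  have hd : ∀ t, HasDerivAt (fun t => w (line k t y) * (φ (line k t y) : ℂ))
      (w (line k t y) * (pd k φ (line k t y) : ℂ) + pdc k w (line k t y) * (φ (line k t y) : ℂ))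
      t := by
    intro t
    have := (hdw t).mul (hdφ t).ofReal_comp
    refine this.congr_deriv ?_
    ring
  have hcw : Continuous fun t => w (line k t y) :=
    continuous_iff_continuousAt.2 fun t => (hdw t).continuousAt
  have hcφ : Continuous fun t => φ (line k t y) := hφ.continuous.comp (continuous_line k y)
  have hcpw : Continuous fun t => pdc k w (line k t y) := by
    have h1 : ContinuousOn (fderiv ℝ w) (Off m) :=
      hw.continuousOn_fderiv_of_isOpen isOpen_Off le_rfl
    have h2 : ContinuousOn (fun x => pdc k w x) (Off m) := by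
      unfold pdc
      exact h1.clm_apply continuousOn_const
    exact h2.comp_continuous (continuous_line k y) fun t => line_mem k t hy
  have hcpφ : Continuous fun t => pd k φ (line k t y) := by
    have h1 : Continuous fun x => pd k φ x := by
      unfold pd
      exact (hφ.continuous_fderiv (by simp)).clm_apply continuous_const
    exact h1.comp (continuous_line k y)
  obtain ⟨R, hR⟩ := hc.isCompact.isBounded.subset_closedBall (0 : Fin (m + 2) → ℝ)
  have hz : ∀ t, t ∉ Icc (-R) R → line k t y ∉ tsupport φ := by
    intro t ht hm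
    have h1 := hR hm
    rw [mem_closedBall_zero_iff] at h1
    have h2 : ‖line k t y k‖ ≤ ‖line k t y‖ := norm_le_pi_norm _ k
    have h3 : line k t y k = t := by simp [line]
    rw [h3, Real.norm_eq_abs] at h2
    exact ht (abs_le.1 (h2.trans h1))
  have hz1 : ∀ t, t ∉ Icc (-R) R → φ (line k t y) = 0 := fun t ht =>
    image_eq_zero_of_notMem_tsupport (hz t ht)
  have hz2 : ∀ t, t ∉ Icc (-R) R → pd k φ (line k t y) = 0 := by
    intro t ht
    unfold pd
    have h1 : line k t y ∉ tsupport (fderiv ℝ φ) := fun h =>
      hz t ht (tsupport_fderiv_subset ℝ h)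
    rw [image_eq_zero_of_notMem_tsupport h1]
    rfl
  refine integral_eq_zero_of_hasDerivAt_of_integrable hd ?_ ?_
  · refine Continuous.integrable_of_hasCompactSupport
      ((hcw.mul (Complex.continuous_ofReal.comp hcpφ)).add
        (hcpw.mul (Complex.continuous_ofReal.comp hcφ))) ?_
    refine HasCompactSupport.intro isCompact_Icc (K := Icc (-R) R) fun t ht => ?_
    simp [hz1 t ht, hz2 t ht]
  · refine Continuous.integrable_of_hasCompactSupport
      (hcw.mul (Complex.continuous_ofReal.comp hcφ)) ?_
    refine HasCompactSupport.intro isCompact_Icc (K := Icc (-R) R) fun t ht => ?_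
    simp [hz1 t ht]

/-- functions which are continuously differentiable off the axis and square integrable together
with their partial derivatives belong to the Sobolev space -/
theorem weak_of_off {w : (Fin (m + 2) → ℝ) → ℂ} (hw : ContDiffOn ℝ 1 w (Off m))
    (h2 : MemLp w 2 volume) (h2' : ∀ k, MemLp (pdc k w) 2 volume) :
    WGradC w (fun k => pdc k w) := by
  refine ⟨h2, h2', fun k φ hφ hc => ?_⟩
  have hφ2 : MemLp (fun x => (φ x : ℂ)) 2 volume := by
    have h1 : Continuous fun x => (φ x : ℂ) := Complex.continuous_ofReal.comp hφ.continuous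
    have h2 : HasCompactSupport fun x => (φ x : ℂ) := hc.comp_left Complex.ofReal_zero
    exact h1.memLp_of_hasCompactSupport h2
  have hpφ2 : MemLp (fun x => (pd k φ x : ℂ)) 2 volume := by
    have h1 : Continuous fun x => (pd k φ x : ℂ) := by
      refine Complex.continuous_ofReal.comp ?_
      unfold pd
      exact (hφ.continuous_fderiv (by simp)).clm_apply continuous_const
    have h2 : HasCompactSupport fun x => (pd k φ x : ℂ) := by
      have h3 : HasCompactSupport fun x => pd k φ x := by
        unfold pd
        exact (hc.fderiv ℝ).comp_left (g := fun L : (Fin (m + 2) → ℝ) →L[ℝ] ℝ =>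
          L (Pi.single k 1)) rfl
      exact h3.comp_left Complex.ofReal_zero
    exact h1.memLp_of_hasCompactSupport h2
  have hi1 : Integrable fun x => w x * (pd k φ x : ℂ) := h2.integrable_mul hpφ2
  have hi2 : Integrable fun x => pdc k w x * (φ x : ℂ) := (h2' k).integrable_mul hφ2
  have hsum : ∫ x, (w x * (pd k φ x : ℂ) + pdc k w x * (φ x : ℂ)) = 0 := by
    set Φ : (Fin (m + 2) → ℝ) → ℂ := fun x => w x * (pd k φ x : ℂ) + pdc k w x * (φ x : ℂ) with hΦ
    have hΦi : Integrable Φ := hi1.add hi2
    have hmp := (volume_preserving_piFinSuccAbove (fun _ : Fin (m + 2) => ℝ) k).symm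
    have e1 : ∫ x, Φ x = ∫ p : ℝ × (Fin (m + 1) → ℝ), Φ (line k p.1 p.2) :=
      (hmp.integral_comp' Φ).symm
    have hint : Integrable (fun p : ℝ × (Fin (m + 1) → ℝ) => Φ (line k p.1 p.2))
        (volume.prod volume) :=
      (hmp.integrable_comp_emb (MeasurableEquiv.measurableEmbedding _)).2 hΦi
    rw [e1, Measure.volume_eq_prod, integral_prod_symm _ hint]
    rw [show (0 : ℂ) = ∫ y : Fin (m + 1) → ℝ, (0 : ℂ) by simp]
    refine integral_congr_ae ?_
    have hy : ∀ᵐ y : Fin (m + 1) → ℝ, y 0 ≠ 0 :=
      Measure.ae_eval_ne (fun _ : Fin (m + 1) => (volume : Measure ℝ)) 0 0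
    filter_upwards [hy] with y hy
    exact integral_line hw k hφ hc hy
  rw [integral_add hi1 hi2] at hsum
  exact eq_neg_of_add_eq_zero_left hsum

end

end Pool.Agent.K7.H21.LT
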